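import Pool.Agent.Work.CharSums71.Final

set_option autoImplicit false

/-! Link between the class count, the representation `4 a^2 + 27 b^2` and the sequence. -/

namespace Pool.Agent.Work.CharSums71

open Finset

variable {q : ℕ} [Fact q.Prime]

/-- `1 + 2 h = 2^(p-2) ∓ a`. -/
lemma count_eq {p : ℕ} (hp : 5 ≤ p) (hodd : p % 2 = 1) (hqp : q + 1 = 2 ^ p)
    {ω : ZMod q} (hω : ω ^ 2 + ω + 1 = 0) (hω1 : ω ≠ 1) (hl : chi q (1 - ω) = -1)
    (hl' : chi q (1 - ω ^ 2) = 1) (hχω : chi q ω = 1) {a b : ℤ}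
    (hab : (q : ℤ) = 4 * a ^ 2 + 27 * b ^ 2) :
    1 + 2 * ((cls q (1 - ω) (1 - ω ^ 2) 1 (-1) 1).card : ℤ) = 2 ^ (p - 2) - a ∨
    1 + 2 * ((cls q (1 - ω) (1 - ω ^ 2) 1 (-1) 1).card : ℤ) = 2 ^ (p - 2) + a := by
  have h4 : 2 ^ p = 4 * 2 ^ (p - 2) := by
    have : p = (p - 2) + 2 := by omega
    conv_lhs => rw [this, pow_add]
    ring
  have h24 := two_pow_mod hp hodd
  have hq24 : q % 24 = 7 := by omega
  have hq2 : q ≠ 2 := by omega
  have hneg : chi q (-1) = -1 := chi_neg_one (by omega)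
  have hll : (1 - ω) * (1 - ω ^ 2) = 3 := by linear_combination (ω - 2) * hω
  have hls : (1 - ω) + (1 - ω ^ 2) = 3 := by linear_combination -hω
  have hll' : chi q (1 - ω ^ 2 - (1 - ω)) = -1 := by
    have : 1 - ω ^ 2 - (1 - ω) = ω * (1 - ω) := by ring
    rw [this, chi_mul, hχω, hl]; norm_num
  have hc := card_cls hq2 hneg hll hls hl hl' hll'
  obtain ⟨d, hd⟩ := four_q_eq hq2 hω hω1 (by omega : q % 3 = 1)
  generalize (cls q (1 - ω) (1 - ω ^ 2) 1 (-1) 1).card = h at hc ⊢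
  generalize E q 1 = T at hc hd
  have hqZ : (q : ℤ) = 4 * 2 ^ (p - 2) - 1 := by
    have : (q : ℤ) + 1 = 4 * 2 ^ (p - 2) := by exact_mod_cast (hqp.trans h4)
    linarith
  -- T = 4 T'
  have hT : T = 4 * (2 ^ (p - 2) - 1 - 2 * (h : ℤ)) := by
    have : T = (q : ℤ) + 1 - 8 * h - 4 := by linarith
    rw [this, hqZ]; ring
  set T' := (2 : ℤ) ^ (p - 2) - 1 - 2 * (h : ℤ) with hT'
  have hd2 : (2 : ℤ) ∣ d := by
    have h1 : (2 : ℤ) ∣ d ^ 2 := by
      rw [hT] at hd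
      have h2 : 3 * d ^ 2 = 2 * (2 * (q : ℤ) - 8 * T' ^ 2) := by linarith [hd]
      have h3 : (2 : ℤ) ∣ 3 * d ^ 2 := ⟨_, h2⟩
      rcases Int.prime_two.dvd_or_dvd h3 with h4 | h4
      · norm_num at h4
      · exact h4
    exact Int.prime_two.dvd_of_dvd_pow h1
  obtain ⟨d', hd'⟩ := hd2
  have h1 : (q : ℤ) = (2 * T') ^ 2 + 3 * d' ^ 2 := by
    rw [hT, hd'] at hd; linarith [hd]
  have h2 : (q : ℤ) = (2 * a) ^ 2 + 3 * (3 * b) ^ 2 := by linarith [hab]
  have h3 := rep_unique h1 h2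
  have h5 : (T' - a) * (T' + a) = 0 := by nlinarith [h3]
  rcases mul_eq_zero.mp h5 with h6 | h6
  · left
    rw [hT'] at h6; linarith
  · right
    rw [hT'] at h6; linarith

/-- The final sign in `ZMod q`. -/
theorem sign_zmod {p : ℕ} (hp : 5 ≤ p) (hodd : p % 2 = 1) (hqp : q + 1 = 2 ^ p)
    {a b : ℤ} (hab : (q : ℤ) = 4 * a ^ 2 + 27 * b ^ 2)
    (S : ℕ → ℤ) (hS1 : S 1 = 4) (hS : ∀ k : ℕ, 1 ≤ k → S (k + 1) = S k ^ 2 - 2) :
    ((S (p - 2) : ℤ) : ZMod q) = ((jacobiSym 2 a.natAbs : ℤ) : ZMod q) * 2 ^ ((p + 1) / 2) := by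
  have h24 := two_pow_mod hp hodd
  have h4 : 2 ^ p = 4 * 2 ^ (p - 2) := by
    have : p = (p - 2) + 2 := by omega
    conv_lhs => rw [this, pow_add]
    ring
  have hq24 : q % 24 = 7 := by omega
  have hq2 : q ≠ 2 := by omega
  have hneg : chi q (-1) = -1 := chi_neg_one (by omega)
  obtain ⟨ω, hω, hω1, hl, hl', hχω⟩ := exists_omega (q := q) (by omega) hneg
  have hcount := count_eq hp hodd hqp hω hω1 hl hl' hχω hab
  -- sqrt of two
  obtain ⟨s2, hs2⟩ : ∃ s2 : ZMod q, s2 = 2 ^ ((p + 1) / 2) := ⟨_, rfl⟩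
  have hs2sq : s2 ^ 2 = 2 := by
    rw [hs2, ← pow_mul]
    have h1 : (p + 1) / 2 * 2 = p + 1 := by omega
    rw [h1, pow_succ]
    have h2 : (2 : ZMod q) ^ p = 1 := by
      have h3 : ((2 ^ p : ℕ) : ZMod q) = ((q + 1 : ℕ) : ZMod q) := by rw [hqp]
      push_cast at h3
      rw [h3]; simp
    rw [h2, one_mul]
  have hs20 : s2 ≠ 0 := by
    intro h; rw [h] at hs2sq
    exact two_ne_zero' hq2 (by rw [← hs2sq]; ring)
  have hchi2 : chi q 2 = 1 := by rw [← hs2sq, chi_sq hs20]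
  have hchis2 : chi q s2 = 1 := by rw [hs2, chi_pow_nat, hchi2, one_pow]
  -- the field
  let K := AlgebraicClosure (ZMod q)
  have h20K : (2 : K) ≠ 0 := by
    have : algebraMap (ZMod q) K 2 ≠ 0 := by
      rw [map_ne_zero]; exact two_ne_zero' hq2
    rwa [map_ofNat] at this
  obtain ⟨z, hz8, hzω, hrz⟩ := exists_z (K := K) h20K
    (W := algebraMap (ZMod q) K ω) (r := algebraMap (ZMod q) K s2)
    (by rw [← map_pow, ← map_add, ← map_one (algebraMap (ZMod q) K), ← map_add, hω, map_zero])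
    (by rw [← map_pow, hs2sq, map_ofNat])
  have V := value (K := K) hp hodd hqp hω hl hl' hχω hs2sq hchis2 hz8 hzω hrz
  generalize (cls q (1 - ω) (1 - ω ^ 2) 1 (-1) 1).card = h at hcount V
  have hz12 : z ^ 12 = -1 := by linear_combination (z ^ 4 + 1) * hz8
  have hz24 : z ^ 24 = 1 := by
    have : z ^ 24 = (z ^ 12) ^ 2 := by ring
    rw [this, hz12]; ring
  have hz0 : z ≠ 0 := by
    rintro h; rw [h] at hz12; norm_num at hz12
  -- the sequence
  have hseq : ∀ k : ℕ, 1 ≤ k → ((S k : ℤ) : K)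
      = (z + z ^ 3 - z ^ 7) ^ (2 ^ k) + (z ^ 5 - z ^ 7) ^ (2 ^ k) := by
    intro k hk
    induction k, hk using Nat.le_induction with
    | base =>
      rw [hS1]
      push_cast
      linear_combination (-1 : K) * (2 * z ^ 6 + (-2) * z ^ 4 + z ^ 2 + (-4)) * hz8
    | succ k hk ih =>
      rw [hS k hk]
      push_cast
      rw [ih, pow_succ 2 k, pow_mul, pow_mul]
      have h1 : (z + z ^ 3 - z ^ 7) ^ (2 ^ k) * (z ^ 5 - z ^ 7) ^ (2 ^ k) = 1 := by
        rw [← mul_pow]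
        have : (z + z ^ 3 - z ^ 7) * (z ^ 5 - z ^ 7) = 1 := by
          linear_combination (z ^ 6 + (-1) * z ^ 4 + (-1)) * hz8
        rw [this, one_pow]
      linear_combination 2 * h1
  have hSp := hseq (p - 2) (by omega)
  have hinv : (z + z ^ 3 - z ^ 7) ^ (2 ^ (p - 2)) * (z ^ 5 - z ^ 7) ^ (2 ^ (p - 2)) = 1 := by
    rw [← mul_pow]
    have : (z + z ^ 3 - z ^ 7) * (z ^ 5 - z ^ 7) = 1 := by
      linear_combination (z ^ 6 + (-1) * z ^ 4 + (-1)) * hz8
    rw [this, one_pow]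
  generalize (z + z ^ 3 - z ^ 7) ^ (2 ^ (p - 2)) = Z at V hSp hinv
  generalize (z ^ 5 - z ^ 7) ^ (2 ^ (p - 2)) = Z' at hSp hinv
  -- reduce exponent mod 4
  have hmod : (-z ^ 6) ^ h = (-z ^ 6) ^ (h % 4) := by
    have h1 : (-z ^ 6) ^ 4 = 1 := by
      have : (-z ^ 6) ^ 4 = z ^ 24 := by ring
      rw [this, hz24]
    conv_lhs => rw [← Nat.div_add_mod h 4, pow_add, pow_mul, h1, one_pow, one_mul]
  rw [hmod] at V
  have hz30 : z ^ 3 ≠ 0 := pow_ne_zero 3 hz0
  have hZ0 : Z ≠ 0 := by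
    intro h0; rw [h0, zero_mul] at hinv; exact zero_ne_one hinv
  -- the sign
  have hsign : ((S (p - 2) : ℤ) : K)
      = (if h % 4 = 0 ∨ h % 4 = 3 then (1 : K) else -1) * algebraMap (ZMod q) K s2 := by
    rw [hSp, hrz]
    have hlt : h % 4 < 4 := Nat.mod_lt _ (by norm_num)
    have hcases : h % 4 = 0 ∨ h % 4 = 1 ∨ h % 4 = 2 ∨ h % 4 = 3 := by omega
    rcases hcases with h0 | h0 | h0 | h0
    · rw [h0] at V ⊢
      simp only [true_or, if_true, one_mul, pow_zero] at V ⊢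
      have e1 : Z = z - z ^ 5 := by
        apply mul_left_cancel₀ hz30
        rw [V]; linear_combination hz8
      have e2 : Z' = z ^ 3 := by
        apply mul_left_cancel₀ hZ0
        rw [hinv]; linear_combination -V
      rw [e1, e2]; ring
    · rw [h0] at V ⊢
      norm_num at V ⊢
      have e1 : Z = -z ^ 3 := by
        apply mul_left_cancel₀ hz30
        rw [V]; ring
      have e2 : Z' = -(z - z ^ 5) := by
        apply mul_left_cancel₀ hZ0
        rw [hinv, e1]; linear_combination hz8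
      rw [e1, e2]; ring
    · rw [h0] at V ⊢
      norm_num at V ⊢
      have e1 : Z = -(z - z ^ 5) := by
        apply mul_left_cancel₀ hz30
        rw [V]
        linear_combination hz12 - hz8
      have e2 : Z' = -z ^ 3 := by
        apply mul_left_cancel₀ hZ0
        rw [hinv, e1]; linear_combination hz8
      rw [e1, e2]; ring
    · rw [h0] at V ⊢
      norm_num at V ⊢
      have e1 : Z = z ^ 3 := by
        apply mul_left_cancel₀ hz30
        rw [V]
        linear_combination (-z ^ 6) * hz12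
      have e2 : Z' = z - z ^ 5 := by
        apply mul_left_cancel₀ hZ0
        rw [hinv, e1]; linear_combination hz8
      rw [e1, e2]; ring
  -- the Jacobi symbol
  have h8 : (2 : ℤ) ^ (p - 2) % 8 = 0 := by
    have : p - 2 = (p - 5) + 3 := by omega
    rw [this, pow_add]
    norm_num
  have hjac : jacobiSym 2 a.natAbs = if h % 4 = 0 ∨ h % 4 = 3 then (1 : ℤ) else -1 := by
    generalize (2 : ℤ) ^ (p - 2) = N at hcount h8
    have haodd : a.natAbs % 2 = 1 := by omega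
    rw [jacobiSym.at_two (Nat.odd_iff.mpr haodd), ZMod.χ₈_nat_eq_if_mod_eight]
    rw [if_neg (by omega)]
    by_cases hh : h % 4 = 0 ∨ h % 4 = 3
    · rw [if_pos hh, if_pos (by omega)]
    · rw [if_neg hh, if_neg (by omega)]
  rw [hjac, ← hs2]
  apply (algebraMap (ZMod q) K).injective
  rw [map_mul, map_intCast, map_intCast, hsign]
  split_ifs <;> simp

end Pool.Agent.Work.CharSums71
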