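import Pool.Agent.Work.CharSums71.Sums

set_option autoImplicit false

/-! The sum `∑ χ(x^3 + 1)` over `ZMod q` and the form `x^2 + 3 y^2`. -/

namespace Pool.Agent.Work.CharSums71

open Finset

variable {q : ℕ} [Fact q.Prime]

/-- `E D = ∑ χ(x^3 + D)`. -/
def E (q : ℕ) [Fact q.Prime] (D : ZMod q) : ℤ := ∑ x : ZMod q, chi q (x ^ 3 + D)

lemma chi_cube {k : ZMod q} : chi q (k ^ 3) = chi q k := by
  by_cases hk : k = 0
  · simp [hk]
  · have h : k ^ 3 = k ^ 2 * k := by ring
    rw [h, chi_mul, chi_sq hk, one_mul]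

lemma E_scale {k : ZMod q} (hk : k ≠ 0) (D : ZMod q) : E q (D * k ^ 3) = chi q k * E q D := by
  unfold E
  have h1 := Equiv.sum_comp (Equiv.mulLeft₀ k hk) (fun x => chi q (x ^ 3 + D * k ^ 3))
  rw [← h1, Finset.mul_sum]
  refine Finset.sum_congr rfl (fun x _ => ?_)
  have h2 : (Equiv.mulLeft₀ k hk) x = k * x := rfl
  have : (k * x) ^ 3 + D * k ^ 3 = k ^ 3 * (x ^ 3 + D) := by ring
  rw [h2, this, chi_mul, chi_cube]

lemma E_zero (hq : q ≠ 2) : E q 0 = 0 := by
  unfold E
  simp only [add_zero, chi_cube]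
  exact sum_chi hq

/-- The number of `y` with `y ^ 3 = x ^ 3`. -/
lemma card_cube {w : ZMod q} (hw : w ^ 2 + w + 1 = 0) (hw1 : w ≠ 1) (x : ZMod q) :
    ∑ y : ZMod q, (if x ^ 3 = y ^ 3 then (1 : ℤ) else 0) = if x = 0 then 1 else 3 := by
  by_cases hx : x = 0
  · subst hx
    have : ∀ y : ZMod q, (if (0 : ZMod q) ^ 3 = y ^ 3 then (1 : ℤ) else 0)
        = if y = 0 then 1 else 0 := by
      intro y
      have : ((0 : ZMod q) ^ 3 = y ^ 3) ↔ y = 0 := by
        constructor
        · intro h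
          have : y ^ 3 = 0 := by rw [← h]; ring
          exact pow_eq_zero_iff (by norm_num) |>.mp this
        · rintro rfl; rfl
      by_cases h : y = 0
      · rw [if_pos h, if_pos (this.mpr h)]
      · rw [if_neg h, if_neg (fun h' => h (this.mp h'))]
    rw [Finset.sum_congr rfl (fun y _ => this y)]
    simp
  · have hw3 : w ^ 3 = 1 := by linear_combination (w - 1) * hw
    have h12 : w ≠ w ^ 2 := by
      intro h
      have : w * (w - 1) = 0 := by linear_combination -h
      rcases mul_eq_zero.mp this with h0 | h0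
      · rw [h0] at hw; simp at hw
      · exact hw1 (sub_eq_zero.mp h0)
    have h02 : (1 : ZMod q) ≠ w ^ 2 := by
      intro h
      apply h12
      calc w = w * 1 := by ring
        _ = w * w ^ 2 := by rw [← h]
        _ = w ^ 3 := by ring
        _ = 1 := hw3
        _ = w ^ 2 := h
    have key : ∀ y : ZMod q, (if x ^ 3 = y ^ 3 then (1 : ℤ) else 0)
        = if y ∈ ({x, w * x, w ^ 2 * x} : Finset (ZMod q)) then 1 else 0 := by
      intro y
      have : (x ^ 3 = y ^ 3) ↔ y ∈ ({x, w * x, w ^ 2 * x} : Finset (ZMod q)) := by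
        simp only [Finset.mem_insert, Finset.mem_singleton]
        constructor
        · intro h
          have : (y - x) * ((y - w * x) * (y - w ^ 2 * x)) = 0 := by
            linear_combination (-1 : ZMod q) * h + (y * w * x ^ 2 - y ^ 2 * x + x ^ 3 - w * x ^ 3) * hw
          rcases mul_eq_zero.mp this with h | h
          · left; exact sub_eq_zero.mp h
          · rcases mul_eq_zero.mp h with h | h
            · right; left; exact sub_eq_zero.mp h
            · right; right; exact sub_eq_zero.mp h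
        · rintro (rfl | rfl | rfl)
          · rfl
          · rw [mul_pow, hw3, one_mul]
          · rw [mul_pow, ← pow_mul, mul_comm 2 3, pow_mul, hw3]; ring
      by_cases h : x ^ 3 = y ^ 3
      · rw [if_pos h, if_pos (this.mp h)]
      · rw [if_neg h, if_neg (fun h' => h (this.mpr h'))]
    rw [Finset.sum_congr rfl (fun y _ => key y), if_neg hx]
    rw [Finset.sum_ite_mem, Finset.univ_inter, Finset.sum_const]
    have hcard : ({x, w * x, w ^ 2 * x} : Finset (ZMod q)).card = 3 := by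
      rw [Finset.card_eq_three]
      refine ⟨x, w * x, w ^ 2 * x, ?_, ?_, ?_, rfl⟩
      · intro h
        apply hw1
        have : (w - 1) * x = 0 := by linear_combination -h
        rcases mul_eq_zero.mp this with h0 | h0
        · exact sub_eq_zero.mp h0
        · exact absurd h0 hx
      · intro h
        apply h02
        have : (1 - w ^ 2) * x = 0 := by linear_combination h
        rcases mul_eq_zero.mp this with h0 | h0
        · exact sub_eq_zero.mp h0
        · exact absurd h0 hx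
      · intro h
        apply h12
        have : (w - w ^ 2) * x = 0 := by linear_combination h
        rcases mul_eq_zero.mp this with h0 | h0
        · exact sub_eq_zero.mp h0
        · exact absurd h0 hx
    rw [hcard]; norm_num

lemma sum_E_sq (hq : q ≠ 2) {w : ZMod q} (hw : w ^ 2 + w + 1 = 0) (hw1 : w ≠ 1) :
    ∑ D : ZMod q, E q D ^ 2 = 2 * (q : ℤ) * ((q : ℤ) - 1) := by
  have h1 : ∀ D : ZMod q, E q D ^ 2
      = ∑ x : ZMod q, ∑ y : ZMod q, chi q (x ^ 3 + D) * chi q (y ^ 3 + D) := by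
    intro D
    unfold E
    rw [sq, Finset.sum_mul_sum]
  rw [Finset.sum_congr rfl (fun D _ => h1 D), Finset.sum_comm]
  have h2 : ∀ x : ZMod q, ∑ D : ZMod q, ∑ y : ZMod q, chi q (x ^ 3 + D) * chi q (y ^ 3 + D)
      = (q : ℤ) * (if x = 0 then 1 else 3) - q := by
    intro x
    rw [Finset.sum_comm]
    have h3 : ∀ y : ZMod q, ∑ D : ZMod q, chi q (x ^ 3 + D) * chi q (y ^ 3 + D)
        = (q : ℤ) * (if x ^ 3 = y ^ 3 then 1 else 0) - 1 := by
      intro y
      have h4 := sum_chi_mul' hq (-(x ^ 3)) (-(y ^ 3))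
      have h5 : ∀ D : ZMod q, chi q (x ^ 3 + D) * chi q (y ^ 3 + D)
          = chi q (D - -(x ^ 3)) * chi q (D - -(y ^ 3)) := by
        intro D
        rw [sub_neg_eq_add, sub_neg_eq_add, add_comm D, add_comm D]
      rw [Finset.sum_congr rfl (fun D _ => h5 D), h4]
      by_cases h : x ^ 3 = y ^ 3
      · simp [h]
      · have h' : ¬ (-(x ^ 3) = -(y ^ 3)) := fun hh => h (neg_injective hh)
        simp [h, h']
    rw [Finset.sum_congr rfl (fun y _ => h3 y), Finset.sum_sub_distrib, ← Finset.mul_sum,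
      card_cube hw hw1 x]
    simp [ZMod.card]
  rw [Finset.sum_congr rfl (fun x _ => h2 x), Finset.sum_sub_distrib, ← Finset.mul_sum]
  have h6 : ∑ x : ZMod q, (if x = 0 then (1 : ℤ) else 3) = 3 * q - 2 := by
    have : ∀ x : ZMod q, (if x = 0 then (1 : ℤ) else 3) = 3 - (if x = 0 then 2 else 0) := by
      intro x; split_ifs <;> norm_num
    rw [Finset.sum_congr rfl (fun x _ => this x), Finset.sum_sub_distrib]
    simp [ZMod.card]
    ring
  rw [h6]
  simp [ZMod.card]
  ring

lemma sum_chi_E (hq : q ≠ 2) : ∑ D : ZMod q, chi q D * E q D = 0 := by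
  have h1 : ∀ D : ZMod q, chi q D * E q D = ∑ x : ZMod q, chi q (D - 0) * chi q (D - -(x ^ 3)) := by
    intro D
    unfold E
    rw [Finset.mul_sum]
    refine Finset.sum_congr rfl (fun x _ => ?_)
    rw [sub_zero, sub_neg_eq_add, add_comm D]
  rw [Finset.sum_congr rfl (fun D _ => h1 D), Finset.sum_comm]
  have h2 : ∀ x : ZMod q, ∑ D : ZMod q, chi q (D - 0) * chi q (D - -(x ^ 3))
      = (if x = 0 then (q : ℤ) else 0) - 1 := by
    intro x
    rw [sum_chi_mul' hq 0 (-(x ^ 3))]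
    by_cases h : x = 0
    · simp [h]
    · have h' : ¬ ((0 : ZMod q) = -(x ^ 3)) := by
        intro hh
        apply h
        have : x ^ 3 = 0 := by linear_combination hh
        exact pow_eq_zero_iff (by norm_num) |>.mp this
      rw [if_neg h, if_neg h']
  rw [Finset.sum_congr rfl (fun x _ => h2 x), Finset.sum_sub_distrib]
  simp [ZMod.card]

/-- Sum over all elements of a function invariant under multiplication by cubes. -/
lemma sum_cubes_inv {m : ℕ} (hm : q - 1 = 3 * m) :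
    ∃ g : ZMod q, g ≠ 0 ∧ ∀ F : ZMod q → ℤ, F 0 = 0 →
      (∀ D k : ZMod q, k ≠ 0 → F (D * k ^ 3) = F D) →
      ∑ D : ZMod q, F D = m * (F 1 + F g + F (g ^ 2)) := by
  obtain ⟨g, hg⟩ := IsCyclic.exists_generator (α := (ZMod q)ˣ)
  refine ⟨(g : ZMod q), g.ne_zero, ?_⟩
  intro F hF0 hF
  have hord : orderOf g = 3 * m := by
    rw [orderOf_eq_card_of_forall_mem_zpowers hg, Nat.card_eq_fintype_card, ZMod.card_units_eq_totient,
      Nat.totient_prime (Fact.out : q.Prime), hm]
  have h1 : ∑ D : ZMod q, F D = ∑ u : (ZMod q)ˣ, F (u : ZMod q) := by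
    rw [← Finset.sum_erase (s := Finset.univ) (f := F) (a := (0 : ZMod q)) hF0]
    symm
    refine Finset.sum_bij (fun u _ => (u : ZMod q)) ?_ ?_ ?_ ?_
    · intro u _
      exact Finset.mem_erase.mpr ⟨u.ne_zero, Finset.mem_univ _⟩
    · intro u _ v _ h
      exact Units.ext h
    · intro D hD
      exact ⟨Units.mk0 D (Finset.ne_of_mem_erase hD), Finset.mem_univ _, rfl⟩
    · intro u _
      rfl
  have h2 : ∑ u : (ZMod q)ˣ, F (u : ZMod q) = ∑ i ∈ Finset.range (3 * m), F ((g : ZMod q) ^ i) := by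
    rw [← IsCyclic.image_range_orderOf hg, Finset.sum_image, hord]
    · refine Finset.sum_congr rfl (fun i _ => ?_)
      rw [Units.val_pow_eq_pow_val]
    · intro i hi j hj hij
      have hi' : i < orderOf g := by simpa using hi
      have hj' : j < orderOf g := by simpa using hj
      exact pow_injOn_Iio_orderOf hi' hj' hij
  rw [h1, h2]
  have h3 : ∀ n : ℕ, ∑ i ∈ Finset.range (3 * n), F ((g : ZMod q) ^ i)
      = n * (F 1 + F g + F (g ^ 2)) := by
    intro n
    induction n with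
    | zero => simp
    | succ n ih =>
      have : 3 * (n + 1) = 3 * n + 1 + 1 + 1 := by ring
      rw [this, Finset.sum_range_succ, Finset.sum_range_succ, Finset.sum_range_succ, ih]
      have hk : ((g : ZMod q) ^ n) ≠ 0 := pow_ne_zero _ g.ne_zero
      have e0 : (g : ZMod q) ^ (3 * n) = 1 * ((g : ZMod q) ^ n) ^ 3 := by ring
      have e1 : (g : ZMod q) ^ (3 * n + 1) = (g : ZMod q) * ((g : ZMod q) ^ n) ^ 3 := by ring
      have e2 : (g : ZMod q) ^ (3 * n + 1 + 1) = (g : ZMod q) ^ 2 * ((g : ZMod q) ^ n) ^ 3 := by ring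
      rw [e0, e1, e2, hF _ _ hk, hF _ _ hk, hF _ _ hk]
      push_cast
      ring
  exact h3 m

/-- `4 q = T^2 + 3 d^2` with `T = ∑ χ(x^3 + 1)`. -/
theorem four_q_eq (hq : q ≠ 2) {w : ZMod q} (hw : w ^ 2 + w + 1 = 0) (hw1 : w ≠ 1)
    (hq3 : q % 3 = 1) : ∃ d : ℤ, 4 * (q : ℤ) = E q 1 ^ 2 + 3 * d ^ 2 := by
  obtain ⟨m, hm⟩ : ∃ m, q - 1 = 3 * m := by
    have hq1 : 1 ≤ q := (Fact.out : q.Prime).one_lt.le
    exact ⟨(q - 1) / 3, by omega⟩
  have hq2 : 2 ≤ q := (Fact.out : q.Prime).two_le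
  have hmpos : (m : ℤ) ≠ 0 := by
    intro h
    have : m = 0 := by exact_mod_cast h
    omega
  have hqm : (q : ℤ) - 1 = 3 * m := by
    have : q = 3 * m + 1 := by omega
    rw [this]; push_cast; ring
  obtain ⟨g, hg0, hg⟩ := sum_cubes_inv hm
  -- first relation
  have r1 := hg (fun D => E q D ^ 2) (by simp [E_zero hq]) (by
    intro D k hk
    rw [E_scale hk, mul_pow]
    have := chi_sq_of_ne hk
    rw [sq (chi q k), this, one_mul])
  rw [sum_E_sq hq hw hw1] at r1
  have r2 := hg (fun D => chi q D * E q D) (by simp [E_zero hq]) (by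
    intro D k hk
    rw [E_scale hk, chi_mul, chi_cube]
    have := chi_sq_of_ne hk
    calc chi q D * chi q k * (chi q k * E q D) = (chi q k * chi q k) * (chi q D * E q D) := by ring
      _ = _ := by rw [this, one_mul])
  rw [sum_chi_E hq] at r2
  have cg := chi_sq_of_ne hg0
  have cg2 := chi_sq_of_ne (pow_ne_zero 2 hg0)
  have c1 : chi q 1 = 1 := chi_one
  set T1 := chi q g * E q g with hT1
  set T2 := chi q (g ^ 2) * E q (g ^ 2) with hT2
  have hE1 : E q g ^ 2 = T1 ^ 2 := by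
    rw [hT1, mul_pow, sq (chi q g), cg, one_mul]
  have hE2 : E q (g ^ 2) ^ 2 = T2 ^ 2 := by
    rw [hT2, mul_pow, sq (chi q (g ^ 2)), cg2, one_mul]
  rw [hE1, hE2, hqm] at r1
  rw [c1, one_mul] at r2
  have s1 : E q 1 ^ 2 + T1 ^ 2 + T2 ^ 2 = 6 * q := by
    have : (m : ℤ) * (E q 1 ^ 2 + T1 ^ 2 + T2 ^ 2) = m * (6 * q) := by
      rw [← r1]; ring
    exact mul_left_cancel₀ hmpos this
  have s2 : E q 1 + T1 + T2 = 0 := by
    rcases mul_eq_zero.mp r2.symm with h | h
    · exact absurd h hmpos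
    · exact h
  have s3 : (T1 - T2) ^ 2 = 12 * q - 3 * E q 1 ^ 2 := by
    have : T2 = -E q 1 - T1 := by linarith
    rw [this] at s1 ⊢
    linarith [s1, sq_nonneg T1]
  have h3 : (3 : ℤ) ∣ T1 - T2 := by
    have : (3 : ℤ) ∣ (T1 - T2) ^ 2 := by
      rw [s3]; exact ⟨4 * q - E q 1 ^ 2, by ring⟩
    exact Int.Prime.dvd_pow' (by norm_num) this
  obtain ⟨d, hd⟩ := h3
  refine ⟨d, ?_⟩
  rw [hd] at s3
  linarith

/-- Uniqueness of the representation of a prime by `X^2 + 3 Y^2`. -/
lemma rep_unique {X Y U V : ℤ} (h1 : (q : ℤ) = X ^ 2 + 3 * Y ^ 2)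
    (h2 : (q : ℤ) = U ^ 2 + 3 * V ^ 2) : X ^ 2 = U ^ 2 := by
  have hp : Prime (q : ℤ) := Nat.prime_iff_prime_int.mp (Fact.out : q.Prime)
  have hq0 : (0 : ℤ) < q := by exact_mod_cast (Fact.out : q.Prime).pos
  have hdvd : (q : ℤ) ∣ (X * V - U * Y) * (X * V + U * Y) := by
    refine ⟨V ^ 2 - Y ^ 2, ?_⟩
    have e1 : X ^ 2 = q - 3 * Y ^ 2 := by linarith
    have e2 : U ^ 2 = q - 3 * V ^ 2 := by linarith
    have : (X * V - U * Y) * (X * V + U * Y) = X ^ 2 * V ^ 2 - U ^ 2 * Y ^ 2 := by ring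
    rw [this, e1, e2]; ring
  have fin : (X * V - U * Y) * (X * V + U * Y) = 0 → X ^ 2 = U ^ 2 := by
    intro h
    have e1 : X ^ 2 = q - 3 * Y ^ 2 := by linarith
    have e2 : U ^ 2 = q - 3 * V ^ 2 := by linarith
    have : (q : ℤ) * (V ^ 2 - Y ^ 2) = 0 := by
      have : (X * V - U * Y) * (X * V + U * Y) = X ^ 2 * V ^ 2 - U ^ 2 * Y ^ 2 := by ring
      rw [this, e1, e2] at h
      linarith
    rcases mul_eq_zero.mp this with h0 | h0
    · omega
    · linarith
  apply fin
  rcases hp.dvd_or_dvd hdvd with h | h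
  · have id1 : (q : ℤ) ^ 2 = (X * U + 3 * Y * V) ^ 2 + 3 * (X * V - U * Y) ^ 2 := by
      have : (q : ℤ) ^ 2 = (X ^ 2 + 3 * Y ^ 2) * (U ^ 2 + 3 * V ^ 2) := by
        rw [← h1, ← h2]; ring
      rw [this]; ring
    obtain ⟨k, hk⟩ := h
    have hk0 : k = 0 := by
      by_contra hne
      have : 1 ≤ k ^ 2 := by
        have := sq_nonneg k
        have h3 : k ^ 2 ≠ 0 := pow_ne_zero 2 hne
        omega
      rw [hk] at id1
      nlinarith [sq_nonneg (X * U + 3 * Y * V), mul_pos hq0 hq0]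
    rw [hk, hk0]; ring
  · have id1 : (q : ℤ) ^ 2 = (X * U - 3 * Y * V) ^ 2 + 3 * (X * V + U * Y) ^ 2 := by
      have : (q : ℤ) ^ 2 = (X ^ 2 + 3 * Y ^ 2) * (U ^ 2 + 3 * V ^ 2) := by
        rw [← h1, ← h2]; ring
      rw [this]; ring
    obtain ⟨k, hk⟩ := h
    have hk0 : k = 0 := by
      by_contra hne
      have : 1 ≤ k ^ 2 := by
        have := sq_nonneg k
        have h3 : k ^ 2 ≠ 0 := pow_ne_zero 2 hne
        omega
      rw [hk] at id1
      nlinarith [sq_nonneg (X * U - 3 * Y * V), mul_pos hq0 hq0]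
    rw [hk, hk0]; ring

end Pool.Agent.Work.CharSums71
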