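import Pool.Agent.Work.CharSums71.Torus
import Pool.Agent.Work.CharSums71.Cubic

set_option autoImplicit false

/-! The sign classes, their cardinality and the involution `x ↦ 3 / x`. -/

namespace Pool.Agent.Work.CharSums71

open Finset

variable {q : ℕ} [Fact q.Prime] {K : Type*} [Field K] [Algebra (ZMod q) K]

/-- The `x` with prescribed signs of `x`, `x - l`, `x - l'`. -/
def cls (q : ℕ) [Fact q.Prime] (l l' : ZMod q) (s s' s'' : ℤ) : Finset (ZMod q) :=
  univ.filter (fun x => chi q x = s ∧ chi q (x - l) = s' ∧ chi q (x - l') = s'')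

lemma mem_cls {l l' x : ZMod q} {s s' s'' : ℤ} :
    x ∈ cls q l l' s s' s'' ↔ chi q x = s ∧ chi q (x - l) = s' ∧ chi q (x - l') = s'' := by
  simp [cls]

lemma X2_eq_left (hneg : chi q (-1) = -1) {l l' : ZMod q}
    (hl' : chi q l' = 1) : X2 q l l' = cls q l l' 1 1 1 ∪ cls q l l' (-1) 1 1 := by
  ext x
  rw [Finset.mem_union, mem_X2, mem_cls, mem_cls]
  constructor
  · rintro ⟨h1, h2⟩
    have hx : x ≠ 0 := by
      rintro rfl
      rw [zero_sub, chi_neg hneg, hl'] at h2
      norm_num at h2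
    rcases chi_eq_one_or hx with h | h
    · left; exact ⟨h, h1, h2⟩
    · right; exact ⟨h, h1, h2⟩
  · rintro (⟨-, h1, h2⟩ | ⟨-, h1, h2⟩)
    · exact ⟨h1, h2⟩
    · exact ⟨h1, h2⟩

lemma X2_eq_right {l l' : ZMod q} (hl : chi q l = -1) :
    X2 q l' 0 = cls q l l' 1 1 1 ∪ cls q l l' 1 (-1) 1 := by
  ext x
  rw [Finset.mem_union, mem_X2, mem_cls, mem_cls, sub_zero]
  constructor
  · rintro ⟨h2, h1⟩
    have hx : x - l ≠ 0 := by
      intro h
      have : x = l := sub_eq_zero.mp h
      rw [this, hl] at h1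
      norm_num at h1
    rcases chi_eq_one_or hx with h | h
    · left; exact ⟨h1, h, h2⟩
    · right; exact ⟨h1, h, h2⟩
  · rintro (⟨h1, -, h2⟩ | ⟨h1, -, h2⟩)
    · exact ⟨h2, h1⟩
    · exact ⟨h2, h1⟩

lemma chi_three {l l' : ZMod q} (hll : l * l' = 3) (hl : chi q l = -1) (hl' : chi q l' = 1) :
    chi q 3 = -1 := by
  rw [← hll, chi_mul, hl, hl']; norm_num

lemma swap_mem (hneg : chi q (-1) = -1) {l l' : ZMod q} (hll : l * l' = 3)
    (hl : chi q l = -1) (hl' : chi q l' = 1) {x : ZMod q} (hx : x ∈ cls q l l' 1 (-1) 1) :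
    3 / x ∈ cls q l l' (-1) 1 1 := by
  rw [mem_cls] at hx ⊢
  obtain ⟨h1, h2, h3⟩ := hx
  have hx0 : x ≠ 0 := ne_zero_of_chi one_ne_zero h1
  refine ⟨?_, ?_, ?_⟩
  · rw [chi_div, chi_three hll hl hl', h1]; norm_num
  · have : 3 / x - l = (-l) * (x - l') / x := by
      rw [← hll]; field_simp; ring
    rw [this, chi_div, chi_mul, chi_neg hneg, hl, h3, h1]; norm_num
  · have : 3 / x - l' = (-l') * (x - l) / x := by
      rw [← hll]; field_simp; ring
    rw [this, chi_div, chi_mul, chi_neg hneg, hl', h2, h1]; norm_num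

lemma swap_mem' (hneg : chi q (-1) = -1) {l l' : ZMod q} (hll : l * l' = 3)
    (hl : chi q l = -1) (hl' : chi q l' = 1) {x : ZMod q} (hx : x ∈ cls q l l' (-1) 1 1) :
    3 / x ∈ cls q l l' 1 (-1) 1 := by
  rw [mem_cls] at hx ⊢
  obtain ⟨h1, h2, h3⟩ := hx
  have hx0 : x ≠ 0 := ne_zero_of_chi (by norm_num) h1
  refine ⟨?_, ?_, ?_⟩
  · rw [chi_div, chi_three hll hl hl', h1]; norm_num
  · have : 3 / x - l = (-l) * (x - l') / x := by
      rw [← hll]; field_simp; ring
    rw [this, chi_div, chi_mul, chi_neg hneg, hl, h3, h1]; norm_num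
  · have : 3 / x - l' = (-l') * (x - l) / x := by
      rw [← hll]; field_simp; ring
    rw [this, chi_div, chi_mul, chi_neg hneg, hl', h2, h1]; norm_num

/-- The relation between the two torus products coming from `x ↦ 3 / x`. -/
theorem ratio (hneg : chi q (-1) = -1) {l l' : ZMod q} (hll : l * l' = 3)
    (hl : chi q l = -1) (hl' : chi q l' = 1) (c : K) (hc : c ^ 2 = 3) :
    (∏ x ∈ X2 q l l', (c - algebraMap (ZMod q) K x))
        * (∏ x ∈ cls q l l' 1 (-1) 1, algebraMap (ZMod q) K x)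
      = (-c) ^ (cls q l l' 1 (-1) 1).card * ∏ x ∈ X2 q l' 0, (c - algebraMap (ZMod q) K x) := by
  have h30 : (3 : ZMod q) ≠ 0 := by
    have := chi_three hll hl hl'
    exact ne_zero_of_chi (by norm_num) this
  have hm3 : algebraMap (ZMod q) K 3 = 3 := map_ofNat (algebraMap (ZMod q) K) 3
  rw [X2_eq_left hneg hl', X2_eq_right hl]
  have hd1 : Disjoint (cls q l l' 1 1 1) (cls q l l' (-1) 1 1) := by
    rw [Finset.disjoint_left]
    intro x h1 h2
    rw [mem_cls] at h1 h2
    have := h1.1.symm.trans h2.1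
    norm_num at this
  have hd2 : Disjoint (cls q l l' 1 1 1) (cls q l l' 1 (-1) 1) := by
    rw [Finset.disjoint_left]
    intro x h1 h2
    rw [mem_cls] at h1 h2
    have := h1.2.1.symm.trans h2.2.1
    norm_num at this
  rw [Finset.prod_union hd1, Finset.prod_union hd2]
  have hB : ∏ y ∈ cls q l l' (-1) 1 1, (c - algebraMap (ZMod q) K y)
      = ∏ x ∈ cls q l l' 1 (-1) 1, (c - algebraMap (ZMod q) K (3 / x)) := by
    symm
    refine Finset.prod_bij (fun x _ => 3 / x) ?_ ?_ ?_ ?_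
    · intro x hx
      exact swap_mem hneg hll hl hl' hx
    · intro x hx y hy h
      have hx0 : x ≠ 0 := ne_zero_of_chi one_ne_zero (mem_cls.mp hx).1
      have hy0 : y ≠ 0 := ne_zero_of_chi one_ne_zero (mem_cls.mp hy).1
      rw [div_eq_div_iff hx0 hy0] at h
      exact (mul_left_cancel₀ h30 h).symm
    · intro y hy
      have hy0 : y ≠ 0 := ne_zero_of_chi (by norm_num) (mem_cls.mp hy).1
      refine ⟨3 / y, swap_mem' hneg hll hl hl' hy, ?_⟩
      field_simp
    · intro x _
      rfl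
  rw [hB]
  have hC : (∏ x ∈ cls q l l' 1 (-1) 1, (c - algebraMap (ZMod q) K (3 / x)))
      * (∏ x ∈ cls q l l' 1 (-1) 1, algebraMap (ZMod q) K x)
      = (-c) ^ (cls q l l' 1 (-1) 1).card
        * ∏ x ∈ cls q l l' 1 (-1) 1, (c - algebraMap (ZMod q) K x) := by
    rw [← Finset.prod_mul_distrib, ← Finset.prod_const, ← Finset.prod_mul_distrib]
    refine Finset.prod_congr rfl (fun x hx => ?_)
    have hx0 : x ≠ 0 := ne_zero_of_chi one_ne_zero (mem_cls.mp hx).1
    have hxK : algebraMap (ZMod q) K x ≠ 0 := by rw [map_ne_zero]; exact hx0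
    rw [map_div₀, hm3]
    field_simp
    linear_combination hc
  linear_combination (∏ x ∈ cls q l l' 1 1 1, (c - algebraMap (ZMod q) K x)) * hC

/-- Counting the class `(+,-,+)`. -/
theorem card_cls (hq : q ≠ 2) (hneg : chi q (-1) = -1) {l l' : ZMod q} (hll : l * l' = 3)
    (hls : l + l' = 3) (hl : chi q l = -1) (hl' : chi q l' = 1) (hll' : chi q (l' - l) = -1) :
    8 * ((cls q l l' 1 (-1) 1).card : ℤ) + 4 = (q : ℤ) + 1 - E q 1 := by
  have hl0 : l ≠ 0 := ne_zero_of_chi (by norm_num) hl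
  have hl0' : l' ≠ 0 := ne_zero_of_chi (by norm_num) hl'
  have hne : l' ≠ l := by
    intro h; rw [h, sub_self, chi_zero] at hll'; norm_num at hll'
  -- the indicator identity
  have h1 : ∀ x : ZMod q, (1 + chi q x) * (1 - chi q (x - l)) * (1 + chi q (x - l'))
      = 8 * (if x ∈ cls q l l' 1 (-1) 1 then 1 else 0) + (if x = l' then 4 else 0) := by
    intro x
    by_cases hx0 : x = 0
    · subst hx0
      have e1 : chi q (0 - l) = 1 := by rw [zero_sub, chi_neg hneg, hl]; norm_num
      have e2 : chi q (0 - l') = -1 := by rw [zero_sub, chi_neg hneg, hl']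
      have e3 : (0 : ZMod q) ∉ cls q l l' 1 (-1) 1 := by
        rw [mem_cls]; rintro ⟨h, -, -⟩; rw [chi_zero] at h; norm_num at h
      rw [e1, e2, if_neg e3, if_neg hl0'.symm]; norm_num
    · by_cases hxl : x = l
      · subst hxl
        have e3 : x ∉ cls q x l' 1 (-1) 1 := by
          rw [mem_cls]; rintro ⟨h, -, -⟩; rw [hl] at h; norm_num at h
        rw [hl, if_neg e3, if_neg hne.symm]; norm_num
      · by_cases hxl' : x = l'
        · subst hxl'
          have e3 : x ∉ cls q l x 1 (-1) 1 := by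
            rw [mem_cls]; rintro ⟨-, -, h⟩; rw [sub_self, chi_zero] at h; norm_num at h
          rw [hl', hll', sub_self, chi_zero, if_neg e3, if_pos rfl]; norm_num
        · rw [if_neg hxl']
          have a1 := chi_eq_one_or hx0
          have a2 := chi_eq_one_or (sub_ne_zero.mpr hxl)
          have a3 := chi_eq_one_or (sub_ne_zero.mpr hxl')
          rcases a1 with a1 | a1 <;> rcases a2 with a2 | a2 <;> rcases a3 with a3 | a3 <;>
            simp [mem_cls, a1, a2, a3]
  have h2 : ∑ x : ZMod q, (1 + chi q x) * (1 - chi q (x - l)) * (1 + chi q (x - l'))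
      = 8 * ((cls q l l' 1 (-1) 1).card : ℤ) + 4 := by
    rw [Finset.sum_congr rfl (fun x _ => h1 x), Finset.sum_add_distrib, ← Finset.mul_sum]
    simp
  rw [← h2]
  have h3 : ∀ x : ZMod q, (1 + chi q x) * (1 - chi q (x - l)) * (1 + chi q (x - l'))
      = 1 + chi q (x - 0) - chi q (x - l) + chi q (x - l') - chi q (x - 0) * chi q (x - l)
        + chi q (x - 0) * chi q (x - l') - chi q (x - l) * chi q (x - l')
        - chi q ((x - 1) ^ 3 + 1) := by
    intro x
    have : (x - 1) ^ 3 + 1 = x * (x - l) * (x - l') := by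
      linear_combination (x ^ 2) * hls - x * hll
    rw [this, chi_mul, chi_mul, sub_zero]
    ring
  rw [Finset.sum_congr rfl (fun x _ => h3 x)]
  have h4 : ∑ x : ZMod q, chi q ((x - 1) ^ 3 + 1) = E q 1 :=
    Equiv.sum_comp (Equiv.subRight (1 : ZMod q)) (fun x => chi q (x ^ 3 + 1))
  simp only [Finset.sum_add_distrib, Finset.sum_sub_distrib]
  rw [h4, sum_chi_sub hq, sum_chi_sub hq, sum_chi_sub hq, sum_chi_mul hq hl0.symm,
    sum_chi_mul hq hl0'.symm, sum_chi_mul hq hne.symm]
  simp [ZMod.card]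

end Pool.Agent.Work.CharSums71
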