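import Pool.Agent.Work.CharSums71.Classes

set_option autoImplicit false

/-! The core identity: the ratio of the two torus products is `z^3 * eta^((q+1)/4)`. -/

namespace Pool.Agent.Work.CharSums71

open Finset

/-- The final algebraic identity. -/
lemma alg_identity {K : Type*} [Field K] (z g Y gq k Z S0 S1 : K)
    (hz : z ^ 8 - z ^ 4 + 1 = 0) (hg : g ^ 2 = z ^ 2 - z ^ 6 - 1) (hY : Y = - Z ^ 2)
    (hZ : Z ^ 4 = -1) (hgq : gq * g = Y * z ^ 8)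
    (ha : S0 * Z * z ^ 8 * g * k = 1)
    (hb : S1 * k * (1 - (z ^ 3 - z ^ 7 + g)) = -(1 - (-z ^ 5 + gq)))
    (hc : k ^ 2 * (1 - (z ^ 3 - z ^ 7)) = 1 + z ^ 5)
    (h1 : k ≠ 0) (h2 : 1 - (z ^ 3 - z ^ 7 + g) ≠ 0) (h3 : g ≠ 0) (h4 : 1 - (z ^ 3 - z ^ 7) ≠ 0) :
    (1 - S0 ^ 2) * S1 = z ^ 8 * Z * S0 * (1 - S1 ^ 2) := by
  have hY2 : Y ^ 2 + 1 = 0 := by rw [hY]; linear_combination hZ
  have hW3 : (z ^ 8) ^ 3 = 1 := by
    linear_combination (z ^ 16 + z ^ 12 + (-1) * z ^ 4 + (-1)) * hz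
  -- S0^2 g^2 k^2 = Y * z^8
  have e1 : S0 ^ 2 * (g ^ 2 * k ^ 2) = Y * z ^ 8 := by
    have h5 : S0 ^ 2 * (g ^ 2 * k ^ 2) * (Z ^ 2 * (z ^ 8) ^ 2) = 1 := by
      linear_combination (S0 * Z * z ^ 8 * g * k + 1) * ha
    have h6 : (Z ^ 2 * (z ^ 8) ^ 2) * (Y * z ^ 8) = 1 := by
      rw [hY]
      linear_combination (-(z ^ 8) ^ 3) * hZ + hW3
    calc S0 ^ 2 * (g ^ 2 * k ^ 2)
        = S0 ^ 2 * (g ^ 2 * k ^ 2) * ((Z ^ 2 * (z ^ 8) ^ 2) * (Y * z ^ 8)) := by rw [h6, mul_one]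
      _ = (S0 ^ 2 * (g ^ 2 * k ^ 2) * (Z ^ 2 * (z ^ 8) ^ 2)) * (Y * z ^ 8) := by ring
      _ = Y * z ^ 8 := by rw [h5, one_mul]
  set w := z ^ 3 - z ^ 7 + g with hw
  set zi := z ^ 3 - z ^ 7 with hzi
  -- multiply everything
  have M0 : k * (1 - w) ^ 2 * g ^ 3 * k ^ 2 * (1 - zi) ≠ 0 := by
    refine mul_ne_zero (mul_ne_zero (mul_ne_zero (mul_ne_zero h1 (pow_ne_zero _ h2))
      (pow_ne_zero _ h3)) (pow_ne_zero _ h1)) h4
  apply mul_left_cancel₀ M0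
  have L : (k * (1 - w) ^ 2 * g ^ 3 * k ^ 2 * (1 - zi)) * ((1 - S0 ^ 2) * S1)
      = -(1 - w) * (g * (1 - (-z ^ 5 + gq))) * (g ^ 2 * (1 + z ^ 5) - Y * z ^ 8 * (1 - zi)) := by
    have a1 : (k * (1 - w) ^ 2 * g ^ 3 * k ^ 2 * (1 - zi)) * ((1 - S0 ^ 2) * S1)
        = (1 - w) * g * (S1 * k * (1 - w)) * (g ^ 2 * (k ^ 2 * (1 - zi))
          - (S0 ^ 2 * (g ^ 2 * k ^ 2)) * (1 - zi)) := by ring
    rw [a1, hb, hc, e1]
    ring
  have R : (k * (1 - w) ^ 2 * g ^ 3 * k ^ 2 * (1 - zi)) * (z ^ 8 * Z * S0 * (1 - S1 ^ 2))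
      = g ^ 2 * (1 - w) ^ 2 * (1 + z ^ 5) - (g * (1 - (-z ^ 5 + gq))) ^ 2 * (1 - zi) := by
    have a1 : (k * (1 - w) ^ 2 * g ^ 3 * k ^ 2 * (1 - zi)) * (z ^ 8 * Z * S0 * (1 - S1 ^ 2))
        = (S0 * Z * z ^ 8 * g * k) * (g ^ 2 * ((1 - w) ^ 2 * (k ^ 2 * (1 - zi))
          - (S1 * k * (1 - w)) ^ 2 * (1 - zi))) := by ring
    rw [a1, hb, hc, ha]
    ring
  rw [L, R]
  have hG : g * (1 - (-z ^ 5 + gq)) = g + z ^ 5 * g - Y * z ^ 8 := by
    linear_combination -hgq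
  rw [hG, hw, hzi]
  linear_combination ((-1) * z ^ 19 + (-1) * z ^ 17 * g + z ^ 17 + (-1) * z ^ 16 + 2 * z ^ 15 + (-1) * z ^ 14 + (-1) * z ^ 13 * g * Y + z ^ 13 * g + (-1) * z ^ 13 + z ^ 12 + (-2) * z ^ 11 + z ^ 10 * g ^ 2 + (-1) * z ^ 10 * g + 2 * z ^ 10 + (-1) * z ^ 8 * g * Y + z ^ 7 * g + (-1) * z ^ 6 + z ^ 5 * g ^ 2 + (-1) * z ^ 3 * g + z ^ 3 + g) * hg + ((-1) * z ^ 30 + 2 * z ^ 26 + z ^ 23 * g + (-1) * z ^ 23 + (-1) * z ^ 22 + (-1) * z ^ 19 * g + z ^ 19 + z ^ 16 * g) * hY2 + (z ^ 22 + z ^ 19 * g * Y + (-1) * z ^ 18 + z ^ 17 + (-1) * z ^ 15 * g * Y + z ^ 14 * g * Y + (-2) * z ^ 13 + z ^ 12 + (-1) * z ^ 11 * g + 2 * z ^ 11 + (-1) * z ^ 10 * g * Y + (-1) * z ^ 10 + z ^ 9 * g + (-1) * z ^ 8 + (-1) * z ^ 7 + z ^ 6 + (-1) * z ^ 5 * g + z ^ 5 + (-1) * z ^ 4 * g + z ^ 3 * g + (-1) * z ^ 3 + z ^ 2 * g + (-1) * g) * hz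

variable {q : ℕ} [Fact q.Prime] {K : Type*} [Field K] [Algebra (ZMod q) K]

lemma charP_K (q : ℕ) [Fact q.Prime] (K : Type*) [Field K] [Algebra (ZMod q) K] : CharP K q :=
  charP_of_injective_algebraMap (algebraMap (ZMod q) K).injective q

lemma frob_map (x : ZMod q) : (algebraMap (ZMod q) K x) ^ q = algebraMap (ZMod q) K x := by
  rw [← map_pow, ZMod.pow_card]

/-- `2 ^ (p - 2)` modulo `24`. -/
lemma two_pow_mod {p : ℕ} (hp : 5 ≤ p) (hodd : p % 2 = 1) : 2 ^ (p - 2) % 24 = 8 := by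
  obtain ⟨k, hk⟩ : ∃ k, p = 2 * k + 5 := ⟨(p - 5) / 2, by omega⟩
  subst hk
  have h1 : 2 * k + 5 - 2 = 2 * k + 3 := by omega
  rw [h1, pow_add, pow_mul]
  have h2 : (2 ^ 2 : ℕ) ^ k % 3 = 1 := by
    rw [Nat.pow_mod]; norm_num
  have h3 : (2 ^ 2 : ℕ) ^ k * 2 ^ 3 = 8 * (2 ^ 2) ^ k := by ring
  rw [h3]
  omega

/-- The core identity. -/
theorem core {p : ℕ} (hp : 5 ≤ p) (hodd : p % 2 = 1) (hqp : q + 1 = 2 ^ p)
    {z : K} (hz : z ^ 8 - z ^ 4 + 1 = 0) {l l' δ s2 : ZMod q}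
    (hlK : algebraMap (ZMod q) K l = 2 - z ^ 4) (hlK' : algebraMap (ZMod q) K l' = 1 + z ^ 4)
    (hs2 : algebraMap (ZMod q) K s2 = z ^ 3 + z - z ^ 5) (hχs : chi q (s2 - 1) = 1)
    (hδ : δ ^ 2 = l') (hχδ : chi q δ = 1) (hl' : chi q l' = 1)
    (hll' : chi q (l' - l) = -1) (hneg : chi q (-1) = -1) (h2 : chi q 2 = 1)
    {γ cw : K} (hγ : γ ^ 2 = (2 * z ^ 2 - z ^ 6) - (1 + z ^ 4))
    (hcw : cw ^ 2 = 2 * (1 - (z ^ 3 - z ^ 7))) :
    (∏ x ∈ X2 q l l', ((2 * z ^ 2 - z ^ 6) - algebraMap (ZMod q) K x))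
      = z ^ 3 * (z + z ^ 3 - z ^ 7) ^ (2 ^ (p - 2))
        * ∏ x ∈ X2 q l' 0, ((2 * z ^ 2 - z ^ 6) - algebraMap (ZMod q) K x) := by
  have : CharP K q := charP_K q K
  have : ExpChar K q := ExpChar.prime (Fact.out : q.Prime)
  -- numerology
  set N := 2 ^ (p - 2) with hN
  have hN24 : N % 24 = 8 := two_pow_mod hp hodd
  have hq4 : q + 1 = 4 * N := by
    rw [hqp, hN]
    have : p = (p - 2) + 2 := by omega
    conv_lhs => rw [this, pow_add]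
    ring
  have hq2 : q ≠ 2 := by omega
  set n := (q - 1) / 2 with hnn
  have hn1 : n + 1 = 2 * N := by omega
  have hnq : 2 * n + 1 = q := by omega
  have hnodd : Odd n := ⟨N - 1, by omega⟩
  -- roots of unity
  have hz12 : z ^ 12 = -1 := by linear_combination (z ^ 4 + 1) * hz
  have hz24 : z ^ 24 = 1 := by
    have : z ^ 24 = (z ^ 12) ^ 2 := by ring
    rw [this, hz12]; ring
  have hzmod : ∀ a : ℕ, z ^ a = z ^ (a % 24) := by
    intro a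
    conv_lhs => rw [← Nat.div_add_mod a 24, pow_add, pow_mul, hz24, one_pow, one_mul]
  have hz0 : z ≠ 0 := by
    rintro rfl
    norm_num at hz12
  have hq24 : q % 24 = 7 := by omega
  have hzq : z ^ q = z ^ 7 := by rw [hzmod q, hq24]
  set zi := z ^ 3 - z ^ 7 with hzi
  have hziz : z * zi = 1 := by rw [hzi]; linear_combination (-1 : K) * hz
  have hzi0 : zi ≠ 0 := by
    intro h; rw [h, mul_zero] at hziz; exact zero_ne_one hziz
  have hziq : zi ^ q = - z ^ 5 := by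
    rw [hzi, sub_pow_expChar, ← pow_mul, mul_comm 3 q, pow_mul, ← pow_mul z 7 q, mul_comm 7 q,
      pow_mul z q 7, hzq]
    linear_combination (z ^ 13 + z ^ 9 + (-1) * z) * hz
      - (z ^ 41 + z ^ 37 + (-1) * z ^ 29 + (-1) * z ^ 25 + z ^ 17 + z ^ 13 + (-1) * z ^ 5
        + (-1) * z) * hz
  -- maps
  have hχ2 : (2 : K) ^ n = 1 := by
    have := map_pow_half (K := K) hq2 2
    rw [h2, map_ofNat] at this
    simpa using this
  have hδK : algebraMap (ZMod q) K δ ^ 2 = 1 + z ^ 4 := by rw [← map_pow, hδ, hlK']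
  have hδn : algebraMap (ZMod q) K δ ^ n = 1 := by
    have := map_pow_half (K := K) hq2 δ
    rw [hχδ] at this
    simpa using this
  have hδ0 : algebraMap (ZMod q) K δ ≠ 0 := by
    rw [map_ne_zero]; exact ne_zero_of_chi one_ne_zero hχδ
  set D := algebraMap (ZMod q) K δ with hD
  -- eta
  set eta := z + z ^ 3 - z ^ 7 with heta
  set Z := eta ^ N with hZdef
  have hetaq : eta ^ q = z ^ 7 - z ^ 5 := by
    rw [heta]
    have : z + z ^ 3 - z ^ 7 = z + zi := by rw [hzi]; ring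
    rw [this, add_pow_expChar, hziq, hzq]; ring
  have hZ4 : Z ^ 4 = -1 := by
    have : Z ^ 4 = eta ^ q * eta := by
      rw [hZdef, ← pow_mul, ← pow_succ, hq4, mul_comm]
    rw [this, hetaq, heta]
    linear_combination ((-1) * z ^ 6 + z ^ 4 + 1) * hz
  have hZ0 : Z ≠ 0 := by
    intro h; rw [h] at hZ4; norm_num at hZ4
  -- gamma
  have hγN : γ ^ (n + 1) * Z * z ^ 8 = D := by
    have h3 : γ ^ 2 * eta * z ^ 7 = D ^ 2 := by
      rw [hδK, hγ, heta]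
      linear_combination (z ^ 12 + z ^ 10 + (-2) * z ^ 8 + (-2) * z ^ 4 + (-1)) * hz
    have h4 := congrArg (fun t => t ^ N) h3
    simp only [mul_pow] at h4
    rw [← pow_mul, ← pow_mul, ← pow_mul, ← hn1, hzmod (7 * N)] at h4
    have h5 : 7 * N % 24 = 8 := by omega
    rw [h5, pow_succ D n, hδn, one_mul] at h4
    exact h4
  have hγ0 : γ ≠ 0 := by
    intro h
    rw [h, zero_pow (by omega), zero_mul, zero_mul] at hγN
    exact hδ0 hγN.symm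
  set g := γ / D with hg
  have hg0 : g ≠ 0 := div_ne_zero hγ0 hδ0
  have hγg : γ = D * g := by rw [hg]; field_simp
  have hl0 : (1 + z ^ 4 : K) ≠ 0 := by rw [← hδK]; exact pow_ne_zero _ hδ0
  have hg2 : g ^ 2 = z ^ 2 - z ^ 6 - 1 := by
    apply mul_left_cancel₀ hl0
    have : (1 + z ^ 4) * g ^ 2 = γ ^ 2 := by rw [hγg, mul_pow, hδK]
    rw [this, hγ]
    linear_combination z ^ 2 * hz
  have hgN : g ^ (n + 1) * Z * z ^ 8 = 1 := by
    have h3 : γ ^ (n + 1) = D * g ^ (n + 1) := by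
      rw [hγg, mul_pow, pow_succ D n, hδn, one_mul]
    rw [h3] at hγN
    apply mul_left_cancel₀ hδ0
    linear_combination hγN
  have hgq : g ^ q * g = (-Z ^ 2) * z ^ 8 := by
    have h3 : g ^ q * g * (Z ^ 2 * (z ^ 8) ^ 2) = 1 := by
      have : g ^ q * g = (g ^ (n + 1)) ^ 2 := by
        rw [← pow_succ, ← pow_mul]; congr 1; omega
      rw [this]
      linear_combination (g ^ (n + 1) * Z * z ^ 8 + 1) * hgN
    have h4 : (Z ^ 2 * (z ^ 8) ^ 2) * ((-Z ^ 2) * z ^ 8) = 1 := by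
      linear_combination (-(z ^ 8) ^ 3) * hZ4 + (z ^ 16 + z ^ 12 + (-1) * z ^ 4 + (-1)) * hz
    calc g ^ q * g = g ^ q * g * ((Z ^ 2 * (z ^ 8) ^ 2) * ((-Z ^ 2) * z ^ 8)) := by
          rw [h4, mul_one]
      _ = (g ^ q * g * (Z ^ 2 * (z ^ 8) ^ 2)) * ((-Z ^ 2) * z ^ 8) := by ring
      _ = _ := by rw [h3, one_mul]
  -- the element w
  set w := zi + g with hw
  have hwinv : w * (zi - g) = 1 := by
    rw [hw]
    have : zi ^ 2 - 1 = z ^ 2 - z ^ 6 - 1 := by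
      rw [hzi]; linear_combination (z ^ 6 + (-1) * z ^ 2) * hz
    linear_combination this - hg2
  have hw0 : w ≠ 0 := by
    intro h; rw [h, zero_mul] at hwinv; exact zero_ne_one hwinv
  have hwq : w ^ q = -z ^ 5 + g ^ q := by rw [hw, add_pow_expChar, hziq]
  -- cw
  have hs1 : (z ^ 3 + z - z ^ 5 - 1) ^ n = 1 := by
    have := map_pow_half (K := K) hq2 (s2 - 1)
    rw [hχs, map_sub, map_one, hs2] at this
    simpa using this
  have hrm : (z ^ 3 + z - z ^ 5 - 1 : K) ≠ 0 := by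
    intro h; rw [h, zero_pow (by omega)] at hs1; exact zero_ne_one hs1
  have hz8n : (z ^ 8) ^ n = 1 := by
    rw [← pow_mul, hzmod (8 * n)]
    have : 8 * n % 24 = 0 := by omega
    rw [this, pow_zero]
  have hprod : (1 - zi) * (1 + z ^ 5) = (z ^ 3 + z - z ^ 5 - 1) * z ^ 8 := by
    rw [hzi]; linear_combination (z ^ 5 + z ^ 4 + (-1) * z ^ 3 + 1) * hz
  have h1zi : 1 - zi ≠ 0 := by
    intro h
    rw [h, zero_mul] at hprod
    exact mul_ne_zero hrm (pow_ne_zero _ hz0) hprod.symm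
  have h20 : (2 : K) ≠ 0 := by
    intro h; rw [h, zero_pow (by omega)] at hχ2; exact zero_ne_one hχ2
  have hcw0 : cw ≠ 0 := by
    intro h
    rw [h, zero_pow (by norm_num)] at hcw
    exact mul_ne_zero h20 h1zi hcw.symm
  set k := (cw ^ 2) ^ n with hk
  have hk0 : k ≠ 0 := pow_ne_zero _ (pow_ne_zero _ hcw0)
  have hk1 : (1 + z ^ 5) ^ n * k = 1 := by
    rw [hk, hcw, ← mul_pow]
    have : (1 + z ^ 5) * (2 * (1 - zi)) = 2 * ((z ^ 3 + z - z ^ 5 - 1) * z ^ 8) := by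
      linear_combination 2 * hprod
    rw [this, mul_pow, mul_pow, hχ2, hs1, hz8n]; ring
  have hk2 : k ^ 2 * (1 - zi) = 1 + z ^ 5 := by
    have h3 : k ^ 2 * cw ^ 2 = (cw ^ 2) ^ q := by
      rw [hk, ← pow_mul, ← pow_succ]; congr 1; omega
    rw [hcw, mul_pow, sub_pow_expChar, one_pow, hziq] at h3
    have h4 : (2 : K) ^ q = 2 := by
      have := frob_map (K := K) (q := q) 2
      rwa [map_ofNat] at this
    rw [h4] at h3
    apply mul_left_cancel₀ h20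
    linear_combination h3
  -- first torus product
  have T1 := torus (K := K) hq2 hnodd hneg h2 hll' (2 * z ^ 2 - z ^ 6) (z ^ 5 * γ) γ (by
      rw [hlK, mul_pow, hγ]
      linear_combination ((-1) * z ^ 8 + (-1) * z ^ 6 + z ^ 4 + (-2) * z ^ 2 + 2) * hz) (by
      rw [hlK', hγ])
  -- second torus product
  have hneg' : chi q (0 - l') = -1 := by rw [zero_sub, chi_neg hneg, hl']
  have T2 := torus (K := K) hq2 hnodd hneg h2 hneg' (2 * z ^ 2 - z ^ 6) γ (D * zi) (by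
      rw [hlK', hγ]) (by
      rw [map_zero, mul_pow, hδK, hzi]
      linear_combination (z ^ 10 + (-2) * z ^ 2) * hz)
  rw [← hnn] at T1 T2
  set S0 := (z ^ 5 * γ + γ) ^ n with hS0
  set S1 := (γ + D * zi) ^ n with hS1
  have ha : S0 * Z * z ^ 8 * g * k = 1 := by
    have h3 : S0 = (1 + z ^ 5) ^ n * γ ^ n := by
      rw [hS0, ← mul_pow]; congr 1; ring
    apply mul_left_cancel₀ hδ0
    have h4 : D * (S0 * Z * z ^ 8 * g * k) = ((1 + z ^ 5) ^ n * k) * (γ ^ (n + 1) * Z * z ^ 8) := by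
      rw [h3, pow_succ γ n]
      have : γ ^ n * γ = γ ^ n * (D * g) := by rw [← hγg]
      rw [this]
      ring
    rw [h4, hk1, hγN]; ring
  have hS1w : S1 = w ^ n := by
    have : γ + D * zi = D * w := by rw [hw, hγg]; ring
    rw [hS1, this, mul_pow, hδn, one_mul]
  have h1w : (1 - w) ^ 2 = - (w * cw ^ 2) := by
    rw [hcw]
    have : w ^ 2 - 2 * w * zi + 1 = 0 := by
      have h5 : zi = w - g := by rw [hw]; ring
      rw [h5] at hwinv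
      rw [h5]
      linear_combination -hwinv
    linear_combination this
  have hb : S1 * k * (1 - w) = -(1 - (-z ^ 5 + g ^ q)) := by
    have h3 : ((1 - w) ^ 2) ^ n = - (w ^ n * k) := by
      rw [h1w, neg_pow, mul_pow, hnodd.neg_one_pow]; ring
    have h4 : ((1 - w) ^ 2) ^ n * (1 - w) = 1 - w ^ q := by
      rw [← pow_mul, ← pow_succ, hnq, sub_pow_expChar, one_pow]
    rw [h3] at h4
    rw [hS1w, ← hwq]
    linear_combination -h4
  have h1w0 : 1 - w ≠ 0 := by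
    intro h
    rw [h, zero_pow (by norm_num)] at h1w
    exact mul_ne_zero hw0 (pow_ne_zero _ hcw0) (neg_eq_zero.mp h1w.symm)
  have A := alg_identity z g (-Z ^ 2) (g ^ q) k Z S0 S1 hz hg2 rfl hZ4 hgq ha hb hk2 hk0 h1w0 hg0
    h1zi
  have hS00 : S0 ≠ 0 := by
    intro h; rw [h] at ha; simp at ha
  have hS10 : S1 ≠ 0 := by rw [hS1w]; exact pow_ne_zero _ hw0
  rw [← T1, ← T2] at A
  -- now cancel
  have hc0 : γ * S0 * S1 * z ^ 5 ≠ 0 :=
    mul_ne_zero (mul_ne_zero (mul_ne_zero hγ0 hS00) hS10) (pow_ne_zero _ hz0)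
  apply mul_left_cancel₀ hc0
  linear_combination (-1 : K) * A

end Pool.Agent.Work.CharSums71
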