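import Pool.Agent.Work.CharSums71.Core

set_option autoImplicit false

/-! Assembly of the final theorem. -/

namespace Pool.Agent.Work.CharSums71

open Finset

variable {q : ℕ} [Fact q.Prime]

lemma chi_pow_nat (x : ZMod q) (k : ℕ) : chi q (x ^ k) = chi q x ^ k := by
  induction k with
  | zero => simp [chi_one]
  | succ k ih => rw [pow_succ, chi_mul, ih, pow_succ]

lemma chi_neg_one (hq4 : q % 4 = 3) : chi q (-1) = -1 := by
  unfold chi
  rw [quadraticChar_neg_one_iff_not_isSquare, ZMod.exists_sq_eq_neg_one_iff]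
  omega

/-- A good choice of a cube root of unity. -/
lemma exists_omega (hq3 : q % 3 = 1) (hneg : chi q (-1) = -1) :
    ∃ ω : ZMod q, ω ^ 2 + ω + 1 = 0 ∧ ω ≠ 1 ∧ chi q (1 - ω) = -1 ∧ chi q (1 - ω ^ 2) = 1 ∧
      chi q ω = 1 := by
  have hq2 := (Fact.out : q.Prime).two_le
  obtain ⟨g, hg⟩ := IsCyclic.exists_generator (α := (ZMod q)ˣ)
  have hord : orderOf g = q - 1 := by
    rw [orderOf_eq_card_of_forall_mem_zpowers hg, Nat.card_eq_fintype_card,
      ZMod.card_units_eq_totient, Nat.totient_prime (Fact.out : q.Prime)]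
  have h1 : IsPrimitiveRoot (g : ZMod q) (q - 1) := by
    rw [← hord]
    exact IsPrimitiveRoot.coe_units_iff.mpr (IsPrimitiveRoot.orderOf g)
  have h3 : IsPrimitiveRoot ((g : ZMod q) ^ ((q - 1) / 3)) 3 := h1.pow (by omega) (by omega)
  set w := (g : ZMod q) ^ ((q - 1) / 3) with hw
  have hw1 : w ≠ 1 := h3.ne_one (by norm_num)
  have hw3 : w ^ 3 = 1 := h3.pow_eq_one
  have hwq : w ^ 2 + w + 1 = 0 := by
    have : (w - 1) * (w ^ 2 + w + 1) = 0 := by linear_combination hw3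
    rcases mul_eq_zero.mp this with h | h
    · exact absurd (sub_eq_zero.mp h) hw1
    · exact h
  have hw0 : w ≠ 0 := by
    rintro h; rw [h] at hwq; norm_num at hwq
  have hchi3 : chi q 3 = -1 := by
    have h4 : (2 * w + 1) ^ 2 = -3 := by linear_combination 4 * hwq
    have h5 : (2 * w + 1) ≠ 0 := by
      intro h
      rw [h] at h4
      have h6 : (3 : ZMod q) = 0 := by linear_combination h4
      have h7 : ((3 : ℕ) : ZMod q) = 0 := by exact_mod_cast h6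
      rw [ZMod.natCast_eq_zero_iff] at h7
      have h8 := (Nat.prime_dvd_prime_iff_eq (Fact.out : q.Prime) Nat.prime_three).mp h7
      omega
    have h6 : chi q (-3) = 1 := by rw [← h4, chi_sq h5]
    have h7 : (3 : ZMod q) = -(-3) := by ring
    rw [h7, chi_neg hneg, h6]
  have hprod : chi q (1 - w) * chi q (1 - w ^ 2) = -1 := by
    rw [← chi_mul, ← hchi3]
    congr 1
    linear_combination (w - 2) * hwq
  have hchw : chi q w = 1 := by
    have : w = (w ^ 2) ^ 2 := by linear_combination (-w) * hw3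
    rw [this, chi_sq (pow_ne_zero 2 hw0)]
  have hchw2 : chi q (w ^ 2) = 1 := by rw [chi_sq hw0]
  have hA : 1 - w ≠ 0 := by
    intro h; rw [h, chi_zero] at hprod; norm_num at hprod
  rcases chi_eq_one_or hA with h | h
  · -- replace by w^2
    refine ⟨w ^ 2, ?_, ?_, ?_, ?_, hchw2⟩
    · linear_combination hwq + w * hw3
    · intro h5
      apply hw1
      calc w = w * 1 := by ring
        _ = w * w ^ 2 := by rw [h5]
        _ = w ^ 3 := by ring
        _ = 1 := hw3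
    · rw [h] at hprod; linarith
    · have : 1 - (w ^ 2) ^ 2 = 1 - w := by linear_combination (-w) * hw3
      rw [this, h]
  · refine ⟨w, hwq, hw1, h, ?_, hchw⟩
    rw [h] at hprod; linarith

/-- A primitive 24th root of unity adapted to the given cube root of unity and square root
of two. -/
lemma exists_z {K : Type*} [Field K] [IsAlgClosed K] (h20 : (2 : K) ≠ 0) {W r : K}
    (hW : W ^ 2 + W + 1 = 0) (hr : r ^ 2 = 2) :
    ∃ z : K, z ^ 8 - z ^ 4 + 1 = 0 ∧ z ^ 8 = W ∧ r = z ^ 3 + z - z ^ 5 := by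
  obtain ⟨y, hy⟩ := IsAlgClosed.exists_pow_nat_eq (-2 : K) (n := 2) (by norm_num)
  obtain ⟨e, hee⟩ : ∃ e : K, e ^ 2 - r * e + 1 = 0 := by
    refine ⟨(r + y) / 2, ?_⟩
    have h4 : (4 : K) ≠ 0 := by
      have : (4 : K) = 2 * 2 := by norm_num
      rw [this]; exact mul_ne_zero h20 h20
    have h5 : 2 * ((r + y) / 2) = r + y := by field_simp
    have h6 : 4 * (((r + y) / 2) ^ 2 - r * ((r + y) / 2) + 1) = 0 := by
      linear_combination (2 * ((r + y) / 2) + (r + y) - 2 * r) * h5 + hy - hr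
    rcases mul_eq_zero.mp h6 with h | h
    · exact absurd h h4
    · exact h
  have he4 : e ^ 4 = -1 := by
    linear_combination (e ^ 2 + r * e + 1) * hee + e ^ 2 * hr
  have he0 : e ≠ 0 := by
    rintro h; rw [h] at he4; norm_num at he4
  have hW3 : W ^ 3 = 1 := by linear_combination (W - 1) * hW
  obtain ⟨z, hz⟩ : ∃ z : K, z = e ^ 3 * W ^ 2 := ⟨_, rfl⟩
  have hz4 : z ^ 4 = -W ^ 2 := by
    have : z ^ 4 = (e ^ 4) ^ 3 * (W ^ 3) ^ 2 * W ^ 2 := by rw [hz]; ring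
    rw [this, he4, hW3]; ring
  have hz8' : z ^ 8 = W := by
    have : z ^ 8 = (z ^ 4) ^ 2 := by ring
    rw [this, hz4]
    linear_combination W * hW3
  have hz3 : z ^ 3 = e := by
    have : z ^ 3 = (e ^ 4) ^ 2 * e * (W ^ 3) ^ 2 := by rw [hz]; ring
    rw [this, he4, hW3]; ring
  have hz8 : z ^ 8 - z ^ 4 + 1 = 0 := by
    rw [hz8', hz4]; linear_combination hW
  refine ⟨z, hz8, hz8', ?_⟩
  have h1 : e * (z ^ 3 + z - z ^ 5) = e * r := by
    rw [← hz3]
    have h2 : z ^ 3 * r = (z ^ 3) ^ 2 + 1 := by rw [hz3]; linear_combination -hee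
    rw [h2]
    linear_combination (-1 : K) * hz8
  exact (mul_left_cancel₀ he0 h1).symm

lemma chi_s2_sub_one {K : Type*} [Field K] [Algebra (ZMod q) K] [IsAlgClosed K]
    (hq16 : q % 16 = 15) {s2 : ZMod q} (hs2sq : s2 ^ 2 = 2) (hchis2 : chi q s2 = 1) {e : K}
    (he4 : e ^ 4 = -1) (hee : e ^ 2 - algebraMap (ZMod q) K s2 * e + 1 = 0) :
    chi q (s2 - 1) = 1 := by
  have hq2 : q ≠ 2 := by omega
  have hcharP : CharP K q := charP_K q K
  have hexp : ExpChar K q := ExpChar.prime (Fact.out : q.Prime)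
  have hs20 : s2 ≠ 0 := ne_zero_of_chi one_ne_zero hchis2
  have hs2K : (algebraMap (ZMod q) K s2) ^ 2 = 2 := by rw [← map_pow, hs2sq, map_ofNat]
  obtain ⟨r, hr⟩ : ∃ r : K, r = algebraMap (ZMod q) K s2 := ⟨_, rfl⟩
  rw [← hr] at hee hs2K
  have h20K : (2 : K) ≠ 0 := by
    rw [← hs2K, hr]
    exact pow_ne_zero 2 (by rw [map_ne_zero]; exact hs20)
  have he0 : e ≠ 0 := by
    rintro h; rw [h] at he4; norm_num at he4
  obtain ⟨θ, hθ⟩ := IsAlgClosed.exists_pow_nat_eq e (n := 2) (by norm_num)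
  have hθ8 : θ ^ 8 = -1 := by
    have : θ ^ 8 = (θ ^ 2) ^ 4 := by ring
    rw [this, hθ, he4]
  have hθ16 : θ ^ 16 = 1 := by
    have : θ ^ 16 = (θ ^ 8) ^ 2 := by ring
    rw [this, hθ8]; ring
  have hθq : θ ^ q = -θ ^ 7 := by
    have h1 : q = 16 * (q / 16) + 15 := by omega
    rw [h1, pow_add, pow_mul, hθ16, one_pow, one_mul]
    linear_combination θ ^ 7 * hθ8
  have hyq : (θ - θ ^ 7) ^ q = θ - θ ^ 7 := by
    rw [sub_pow_expChar, ← pow_mul, mul_comm 7 q, pow_mul, hθq]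
    have : (-θ ^ 7) ^ 7 = -(θ ^ 16) ^ 3 * θ := by ring
    rw [this, hθ16]; ring
  have hysq : (θ - θ ^ 7) ^ 2 = r + 2 := by
    have h2 : r * e = e ^ 2 + 1 := by linear_combination -hee
    apply mul_left_cancel₀ he0
    have h3 : e * (r + 2) = e ^ 2 + 1 + 2 * e := by linear_combination h2
    rw [h3, ← hθ]
    linear_combination (-2 * θ ^ 2 + θ ^ 8 - 1) * hθ8
  have hy0 : θ - θ ^ 7 ≠ 0 := by
    intro h
    rw [h] at hysq
    have h3 : r = -2 := by linear_combination -hysq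
    rw [h3] at hs2K
    have h4 : (2 : K) = 0 := by linear_combination hs2K
    exact h20K h4
  have hyn : (r + 2) ^ ((q - 1) / 2) = 1 := by
    rw [← hysq, ← pow_mul]
    have h1 : 2 * ((q - 1) / 2) = q - 1 := by omega
    rw [h1]
    apply mul_right_cancel₀ hy0
    rw [← pow_succ, one_mul]
    have h2 : q - 1 + 1 = q := by omega
    rw [h2, hyq]
  have h5 : chi q (s2 + 2) = 1 := by
    rw [chi_eq_one_iff hq2]
    apply (algebraMap (ZMod q) K).injective
    rw [map_pow, map_add, map_ofNat, map_one, ← hr]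
    exact hyn
  have h6 : s2 + 2 = s2 * (s2 + 1) := by linear_combination -hs2sq
  rw [h6, chi_mul, hchis2, one_mul] at h5
  have h7 : (s2 - 1) * (s2 + 1) = 1 := by linear_combination hs2sq
  have h8 : chi q (s2 - 1) * chi q (s2 + 1) = 1 := by rw [← chi_mul, h7, chi_one]
  rw [h5, mul_one] at h8
  exact h8

lemma eta_pow {p : ℕ} (hp : 5 ≤ p) (hodd : p % 2 = 1) (hqp : q + 1 = 2 ^ p)
    {K : Type*} [Field K] [Algebra (ZMod q) K] {z : K} (hz8 : z ^ 8 - z ^ 4 + 1 = 0) :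
    ((z + z ^ 3 - z ^ 7) ^ (2 ^ (p - 2))) ^ 4 = -1 := by
  have hcharP : CharP K q := charP_K q K
  have hexp : ExpChar K q := ExpChar.prime (Fact.out : q.Prime)
  have hz12 : z ^ 12 = -1 := by linear_combination (z ^ 4 + 1) * hz8
  have hz24 : z ^ 24 = 1 := by
    have : z ^ 24 = (z ^ 12) ^ 2 := by ring
    rw [this, hz12]; ring
  have hzmod : ∀ a : ℕ, z ^ a = z ^ (a % 24) := by
    intro a
    conv_lhs => rw [← Nat.div_add_mod a 24, pow_add, pow_mul, hz24, one_pow, one_mul]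
  have h4 : 2 ^ p = 4 * 2 ^ (p - 2) := by
    have : p = (p - 2) + 2 := by omega
    conv_lhs => rw [this, pow_add]
    ring
  have hq24 : q % 24 = 7 := by
    have := two_pow_mod hp hodd
    omega
  have hzq : z ^ q = z ^ 7 := by rw [hzmod q, hq24]
  have hetaq : (z + z ^ 3 - z ^ 7) ^ q = z ^ 7 - z ^ 5 := by
    have h1 : z + z ^ 3 - z ^ 7 = z + (z ^ 3 - z ^ 7) := by ring
    rw [h1, add_pow_expChar, sub_pow_expChar, ← pow_mul, mul_comm 3 q, pow_mul, ← pow_mul z 7 q,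
      mul_comm 7 q, pow_mul z q 7, hzq]
    linear_combination (z ^ 13 + z ^ 9 + (-1) * z) * hz8
      - (z ^ 41 + z ^ 37 + (-1) * z ^ 29 + (-1) * z ^ 25 + z ^ 17 + z ^ 13 + (-1) * z ^ 5
        + (-1) * z) * hz8
  have h1 : ((z + z ^ 3 - z ^ 7) ^ (2 ^ (p - 2))) ^ 4
      = (z + z ^ 3 - z ^ 7) ^ q * (z + z ^ 3 - z ^ 7) := by
    rw [← pow_mul, ← pow_succ]
    congr 1
    omega
  rw [h1, hetaq]
  linear_combination ((-1) * z ^ 6 + z ^ 4 + 1) * hz8

/-- The value of `eta ^ (2 ^ (p-2))` in terms of the class count. -/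
theorem value {p : ℕ} (hp : 5 ≤ p) (hodd : p % 2 = 1) (hqp : q + 1 = 2 ^ p)
    {ω : ZMod q} (hω : ω ^ 2 + ω + 1 = 0) (hl : chi q (1 - ω) = -1)
    (hl' : chi q (1 - ω ^ 2) = 1) (hχω : chi q ω = 1)
    {s2 : ZMod q} (hs2sq : s2 ^ 2 = 2) (hchis2 : chi q s2 = 1)
    {K : Type*} [Field K] [Algebra (ZMod q) K] [IsAlgClosed K] {z : K}
    (hz8 : z ^ 8 - z ^ 4 + 1 = 0) (hzω : z ^ 8 = algebraMap (ZMod q) K ω)
    (hrz : algebraMap (ZMod q) K s2 = z ^ 3 + z - z ^ 5) :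
    z ^ 3 * (z + z ^ 3 - z ^ 7) ^ (2 ^ (p - 2))
        = (-z ^ 6) ^ (cls q (1 - ω) (1 - ω ^ 2) 1 (-1) 1).card := by
  have h32 : 32 ∣ 2 ^ p := by
    have : 2 ^ p = 32 * 2 ^ (p - 5) := by
      have h : p = 5 + (p - 5) := by omega
      conv_lhs => rw [h, pow_add]
      norm_num
    exact ⟨_, this⟩
  have hq32 : q % 32 = 31 := by omega
  have hq2 : q ≠ 2 := by omega
  have hneg : chi q (-1) = -1 := chi_neg_one (by omega)
  have hcharP : CharP K q := charP_K q K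
  have hω0 : ω ≠ 0 := ne_zero_of_chi one_ne_zero hχω
  have hs20 : s2 ≠ 0 := ne_zero_of_chi one_ne_zero hchis2
  have hchi2 : chi q 2 = 1 := by rw [← hs2sq, chi_sq hs20]
  have hz12 : z ^ 12 = -1 := by linear_combination (z ^ 4 + 1) * hz8
  have hz24 : z ^ 24 = 1 := by
    have : z ^ 24 = (z ^ 12) ^ 2 := by ring
    rw [this, hz12]; ring
  have hchis : chi q (s2 - 1) = 1 := by
    refine chi_s2_sub_one (K := K) (by omega) hs2sq hchis2 (e := z ^ 3) ?_ ?_
    · linear_combination hz12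
    · rw [hrz]; linear_combination hz8
  -- the elements l, l'
  have hlK : algebraMap (ZMod q) K (1 - ω) = 2 - z ^ 4 := by
    rw [map_sub, map_one, ← hzω]; linear_combination (-1 : K) * hz8
  have hlK' : algebraMap (ZMod q) K (1 - ω ^ 2) = 1 + z ^ 4 := by
    rw [map_sub, map_one, map_pow, ← hzω]
    linear_combination ((-1) * z ^ 8 + (-1) * z ^ 4 : K) * hz8
  obtain ⟨δ, hδ, hδ0⟩ := exists_sqrt hl'
  obtain ⟨δ, hδ, hχδ⟩ : ∃ δ : ZMod q, δ ^ 2 = 1 - ω ^ 2 ∧ chi q δ = 1 := by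
    rcases chi_eq_one_or hδ0 with h | h
    · exact ⟨δ, hδ, h⟩
    · exact ⟨-δ, by rw [← hδ]; ring, by rw [chi_neg hneg, h]; norm_num⟩
  have hll' : chi q (1 - ω ^ 2 - (1 - ω)) = -1 := by
    have : 1 - ω ^ 2 - (1 - ω) = ω * (1 - ω) := by ring
    rw [this, chi_mul, hχω, hl]; norm_num
  obtain ⟨γ, hγ⟩ := IsAlgClosed.exists_pow_nat_eq ((2 * z ^ 2 - z ^ 6) - (1 + z ^ 4)) (n := 2)
    (by norm_num)
  obtain ⟨cw, hcw⟩ := IsAlgClosed.exists_pow_nat_eq (2 * (1 - (z ^ 3 - z ^ 7))) (n := 2)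
    (by norm_num)
  have C := core (K := K) hp hodd hqp hz8 hlK hlK' hrz hchis hδ hχδ hl' hll' hneg hchi2 hγ hcw
  have hll : (1 - ω) * (1 - ω ^ 2) = 3 := by linear_combination (ω - 2) * hω
  have hs3 : (2 * z ^ 2 - z ^ 6) ^ 2 = 3 := by
    linear_combination (z ^ 4 + (-3)) * hz8
  have R := ratio (K := K) hneg hll hl hl' (2 * z ^ 2 - z ^ 6) hs3
  have hchi3 : chi q 3 = -1 := chi_three hll hl hl'
  have hP2 : ∏ x ∈ X2 q (1 - ω ^ 2) 0, ((2 * z ^ 2 - z ^ 6) - algebraMap (ZMod q) K x) ≠ 0 := by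
    rw [Finset.prod_ne_zero_iff]
    intro x _ h
    have h1 : (2 * z ^ 2 - z ^ 6) = algebraMap (ZMod q) K x := sub_eq_zero.mp h
    rw [h1, ← map_pow] at hs3
    have h2 : x ^ 2 = 3 := by
      apply (algebraMap (ZMod q) K).injective
      rw [hs3, map_ofNat]
    by_cases hx : x = 0
    · rw [hx] at h2
      have : (3 : ZMod q) = 0 := by rw [← h2]; ring
      rw [this, chi_zero] at hchi3
      norm_num at hchi3
    · rw [← h2, chi_sq hx] at hchi3
      norm_num at hchi3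
  have hZ4 := eta_pow (q := q) hp hodd hqp hz8
  rw [C] at R
  generalize (cls q (1 - ω) (1 - ω ^ 2) 1 (-1) 1).card = h at R ⊢
  generalize (z + z ^ 3 - z ^ 7) ^ (2 ^ (p - 2)) = Z at R hZ4 ⊢
  generalize (∏ x ∈ X2 q (1 - ω ^ 2) 0, ((2 * z ^ 2 - z ^ 6) - algebraMap (ZMod q) K x)) = P2
    at R hP2
  obtain ⟨U, hU⟩ : ∃ U : ZMod q, U = ∏ x ∈ cls q (1 - ω) (1 - ω ^ 2) 1 (-1) 1, x := ⟨_, rfl⟩
  rw [← map_prod, ← hU] at R
  have R1 : z ^ 3 * Z * algebraMap (ZMod q) K U = (-(2 * z ^ 2 - z ^ 6)) ^ h := by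
    apply mul_right_cancel₀ hP2
    linear_combination R
  have hχU : chi q U = 1 := by
    rw [hU]
    unfold chi
    rw [map_prod]
    apply Finset.prod_eq_one
    intro x hx
    exact (mem_cls.mp hx).1
  have hU0 : U ≠ 0 := ne_zero_of_chi one_ne_zero hχU
  -- t
  have ht : -(2 * z ^ 2 - z ^ 6) = (-z ^ 6) * algebraMap (ZMod q) K ((1 - ω ^ 2) * ω ^ 2) := by
    rw [map_mul, hlK', map_pow, ← hzω]
    linear_combination (z ^ 18 + 2 * z ^ 14 + z ^ 10 - z ^ 6 - 2 * z ^ 2 : K) * hz8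
  rw [ht, mul_pow (-z ^ 6), ← map_pow] at R1
  obtain ⟨y', hy'⟩ : ∃ y' : ZMod q, y' = ((1 - ω ^ 2) * ω ^ 2) ^ h / U := ⟨_, rfl⟩
  have hUy : ((1 - ω ^ 2) * ω ^ 2) ^ h = y' * U := by
    rw [hy']; exact (div_mul_cancel₀ _ hU0).symm
  have hχy : chi q y' = 1 := by
    rw [hy', chi_div, hχU, chi_pow_nat, chi_mul, hl', chi_sq hω0]; norm_num
  rw [hUy, map_mul] at R1
  have hUK0 : algebraMap (ZMod q) K U ≠ 0 := by rw [map_ne_zero]; exact hU0
  have R2 : z ^ 3 * Z = (-z ^ 6) ^ h * algebraMap (ZMod q) K y' := by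
    apply mul_right_cancel₀ hUK0
    linear_combination R1
  have hZ8 : Z ^ 8 = 1 := by
    have : Z ^ 8 = (Z ^ 4) ^ 2 := by ring
    rw [this, hZ4]; ring
  have hy8K : (algebraMap (ZMod q) K y') ^ 8 = 1 := by
    have h1 : (z ^ 3 * Z) ^ 8 = 1 := by
      rw [mul_pow, hZ8, ← pow_mul, hz24]; ring
    rw [R2, mul_pow, ← pow_mul, mul_comm h 8, pow_mul] at h1
    have h2 : (-z ^ 6) ^ 8 = 1 := by
      have : (-z ^ 6) ^ 8 = (z ^ 24) ^ 2 := by ring
      rw [this, hz24]; ring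
    rw [h2, one_pow, one_mul] at h1
    exact h1
  have hy8 : y' ^ 8 = 1 := by
    apply (algebraMap (ZMod q) K).injective
    rw [map_pow, hy8K, map_one]
  have hyn : y' ^ ((q - 1) / 2) = 1 := (chi_eq_one_iff hq2 y').mp hχy
  have hy1 : y' = 1 := by
    have h1 : orderOf y' ∣ 8 := orderOf_dvd_of_pow_eq_one hy8
    have h2 : orderOf y' ∣ (q - 1) / 2 := orderOf_dvd_of_pow_eq_one hyn
    have h3 : Nat.Coprime 8 ((q - 1) / 2) := by
      have h4 : Nat.Coprime 2 ((q - 1) / 2) := by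
        rw [Nat.coprime_two_left]
        exact ⟨(q - 3) / 4, by omega⟩
      have : (8 : ℕ) = 2 ^ 3 := by norm_num
      rw [this]
      exact Nat.Coprime.pow_left 3 h4
    have h4 : orderOf y' ∣ 1 := by
      have := Nat.dvd_gcd h1 h2
      rwa [h3] at this
    exact orderOf_eq_one_iff.mp (Nat.dvd_one.mp h4)
  rw [R2, hy1, map_one, mul_one]

end Pool.Agent.Work.CharSums71
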