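import Mathlib

set_option autoImplicit false

/-! Elementary character sums over `ZMod q` for the quadratic character. -/

namespace Pool.Agent.Work.CharSums71

open Finset

variable {q : ℕ} [Fact q.Prime]

/-- The quadratic character of `ZMod q`. -/
def chi (q : ℕ) [Fact q.Prime] (x : ZMod q) : ℤ := quadraticChar (ZMod q) x

lemma ringChar_ne_two (hq : q ≠ 2) : ringChar (ZMod q) ≠ 2 := by
  rw [ZMod.ringChar_zmod_n]; exact hq

lemma chi_mul (x y : ZMod q) : chi q (x * y) = chi q x * chi q y :=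
  map_mul (quadraticChar (ZMod q)) x y

lemma chi_zero : chi q 0 = 0 := by simp [chi]

lemma chi_one : chi q 1 = 1 := by simp [chi]

lemma chi_sq_of_ne {x : ZMod q} (hx : x ≠ 0) : chi q x * chi q x = 1 := by
  have := quadraticChar_sq_one (F := ZMod q) hx
  rw [sq] at this
  exact this

lemma chi_sq {x : ZMod q} (hx : x ≠ 0) : chi q (x ^ 2) = 1 := quadraticChar_sq_one' hx

lemma chi_eq_one_or {x : ZMod q} (hx : x ≠ 0) : chi q x = 1 ∨ chi q x = -1 :=
  quadraticChar_dichotomy hx

lemma chi_inv (x : ZMod q) : chi q x⁻¹ = chi q x := by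
  by_cases hx : x = 0
  · rw [hx, inv_zero]
  · have h1 : chi q x⁻¹ * chi q x = 1 := by
      rw [← chi_mul, inv_mul_cancel₀ hx, chi_one]
    have h2 := chi_sq_of_ne hx
    calc chi q x⁻¹ = chi q x⁻¹ * (chi q x * chi q x) := by rw [h2, mul_one]
      _ = (chi q x⁻¹ * chi q x) * chi q x := by ring
      _ = chi q x := by rw [h1, one_mul]

lemma chi_div (x y : ZMod q) : chi q (x / y) = chi q x * chi q y := by
  rw [div_eq_mul_inv, chi_mul, chi_inv]

lemma ne_zero_of_chi {x : ZMod q} {e : ℤ} (he : e ≠ 0) (hx : chi q x = e) : x ≠ 0 := by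
  rintro rfl
  rw [chi_zero] at hx
  exact he hx.symm

lemma sum_chi (hq : q ≠ 2) : ∑ x : ZMod q, chi q x = 0 :=
  quadraticChar_sum_zero (ringChar_ne_two hq)

lemma sum_chi_sub (hq : q ≠ 2) (e : ZMod q) : ∑ x : ZMod q, chi q (x - e) = 0 := by
  rw [← sum_chi hq]
  exact Equiv.sum_comp (Equiv.subRight e) (fun x => chi q x)

/-- `∑ χ(x) χ(1 - x) = - χ(-1)`. -/
lemma sum_jacobi (hq : q ≠ 2) : ∑ x : ZMod q, chi q x * chi q (1 - x) = - chi q (-1) := by
  have h := jacobiSum_nontrivial_inv (F := ZMod q) (R := ℤ) (quadraticChar_ne_one (ringChar_ne_two hq))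
  have hinv : (quadraticChar (ZMod q))⁻¹ = quadraticChar (ZMod q) :=
    (quadraticChar_isQuadratic (F := ZMod q)).inv
  rw [hinv] at h
  exact h

/-- `∑ χ(x - e) χ(x - e') = -1` for `e ≠ e'`. -/
lemma sum_chi_mul (hq : q ≠ 2) {e e' : ZMod q} (he : e ≠ e') :
    ∑ x : ZMod q, chi q (x - e) * chi q (x - e') = -1 := by
  have hd : e' - e ≠ 0 := sub_ne_zero.mpr he.symm
  -- substitute x = e + (e' - e) * y
  have h1 : ∑ y : ZMod q, chi q ((e + (e' - e) * y) - e) * chi q ((e + (e' - e) * y) - e')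
      = ∑ x : ZMod q, chi q (x - e) * chi q (x - e') := by
    have := Equiv.sum_comp ((Equiv.mulLeft₀ (e' - e) hd).trans (Equiv.addLeft e))
      (fun x => chi q (x - e) * chi q (x - e'))
    simpa using this
  rw [← h1]
  have h2 : ∀ y : ZMod q, chi q ((e + (e' - e) * y) - e) * chi q ((e + (e' - e) * y) - e')
      = chi q (-1) * (chi q y * chi q (1 - y)) := by
    intro y
    have e1 : (e + (e' - e) * y) - e = (e' - e) * y := by ring
    have e2 : (e + (e' - e) * y) - e' = (-1) * ((e' - e) * (1 - y)) := by ring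
    rw [e1, e2, chi_mul, chi_mul, chi_mul]
    have := chi_sq_of_ne hd
    calc chi q (e' - e) * chi q y * (chi q (-1) * (chi q (e' - e) * chi q (1 - y)))
        = (chi q (e' - e) * chi q (e' - e)) * (chi q (-1) * (chi q y * chi q (1 - y))) := by ring
      _ = _ := by rw [this, one_mul]
  rw [Finset.sum_congr rfl (fun y _ => h2 y), ← Finset.mul_sum, sum_jacobi hq]
  have h3 : chi q (-1) * chi q (-1) = 1 := chi_sq_of_ne (neg_ne_zero.mpr one_ne_zero)
  linarith

lemma sum_chi_self (q : ℕ) [Fact q.Prime] (e : ZMod q) :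
    ∑ x : ZMod q, chi q (x - e) * chi q (x - e) = (q : ℤ) - 1 := by
  have h1 : ∑ x : ZMod q, chi q (x - e) * chi q (x - e) = ∑ x : ZMod q, chi q x * chi q x :=
    Equiv.sum_comp (Equiv.subRight e) (fun x => chi q x * chi q x)
  rw [h1]
  have h2 : ∀ x : ZMod q, chi q x * chi q x = 1 - (if x = 0 then 1 else 0) := by
    intro x
    by_cases hx : x = 0
    · simp [hx, chi_zero]
    · rw [chi_sq_of_ne hx]; simp [hx]
  rw [Finset.sum_congr rfl (fun x _ => h2 x), Finset.sum_sub_distrib]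
  simp [ZMod.card]

/-- `∑ χ(x - e) χ(x - e')` in all cases. -/
lemma sum_chi_mul' (hq : q ≠ 2) (e e' : ZMod q) :
    ∑ x : ZMod q, chi q (x - e) * chi q (x - e') = (if e = e' then (q : ℤ) else 0) - 1 := by
  by_cases h : e = e'
  · subst h; simp [sum_chi_self]
  · simp [h, sum_chi_mul hq h]

end Pool.Agent.Work.CharSums71
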