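import Pool.Agent.Work.CharSums71.Sums

set_option autoImplicit false

/-! Products over the points of a conic. -/

namespace Pool.Agent.Work.CharSums71

open Finset

variable {q : ℕ} [Fact q.Prime] {K : Type*} [Field K] [Algebra (ZMod q) K]

/-- The set of nonzero squares. -/
def Q (q : ℕ) [Fact q.Prime] : Finset (ZMod q) := univ.filter (fun s => chi q s = 1)

lemma mem_Q {s : ZMod q} : s ∈ Q q ↔ chi q s = 1 := by simp [Q]

lemma two_mul_half (hq : q ≠ 2) : 2 * ((q - 1) / 2) + 1 = q := by
  have h := (Fact.out : q.Prime).eq_two_or_odd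
  have h1 := (Fact.out : q.Prime).two_le
  omega

lemma chi_pow (hq : q ≠ 2) (x : ZMod q) : ((chi q x : ℤ) : ZMod q) = x ^ ((q - 1) / 2) := by
  have h := quadraticChar_eq_pow_of_char_ne_two' (ringChar_ne_two hq) x
  rw [ZMod.card] at h
  have h2 : q / 2 = (q - 1) / 2 := by
    have := two_mul_half hq
    omega
  rw [h2] at h
  exact h

lemma chi_eq_one_iff (hq : q ≠ 2) (x : ZMod q) : chi q x = 1 ↔ x ^ ((q - 1) / 2) = 1 := by
  rw [← chi_pow hq]
  constructor
  · intro h; rw [h]; simp
  · intro h
    by_cases hx : x = 0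
    · subst hx
      rw [chi_zero] at h
      simp at h
    · rcases chi_eq_one_or hx with h1 | h1
      · exact h1
      · exfalso
        rw [h1] at h
        have : (2 : ZMod q) = 0 := by
          have h2 : (-1 : ZMod q) = 1 := by simpa using h
          linear_combination -h2
        have h3 : ((2 : ℕ) : ZMod q) = 0 := by exact_mod_cast this
        rw [ZMod.natCast_eq_zero_iff] at h3
        have h4 := Nat.le_of_dvd (by norm_num) h3
        have h5 := (Fact.out : q.Prime).two_le
        omega

lemma map_pow_half (hq : q ≠ 2) (x : ZMod q) :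
    (algebraMap (ZMod q) K x) ^ ((q - 1) / 2) = ((chi q x : ℤ) : K) := by
  rw [← map_pow, ← chi_pow hq]
  simp

lemma exists_primitive (hq : q ≠ 2) : ∃ ζ : ZMod q, IsPrimitiveRoot ζ ((q - 1) / 2) := by
  obtain ⟨g, hg⟩ := IsCyclic.exists_generator (α := (ZMod q)ˣ)
  have hord : orderOf g = q - 1 := by
    rw [orderOf_eq_card_of_forall_mem_zpowers hg, Nat.card_eq_fintype_card,
      ZMod.card_units_eq_totient, Nat.totient_prime (Fact.out : q.Prime)]
  have h1 : IsPrimitiveRoot (g : ZMod q) (q - 1) := by
    rw [← hord]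
    exact IsPrimitiveRoot.coe_units_iff.mpr (IsPrimitiveRoot.orderOf g)
  refine ⟨(g : ZMod q) ^ 2, ?_⟩
  have h2 := two_mul_half hq
  have h3 := (Fact.out : q.Prime).two_le
  exact h1.pow (by omega) (by omega)

lemma Q_eq (hq : q ≠ 2) : Q q = Polynomial.nthRootsFinset ((q - 1) / 2) (1 : ZMod q) := by
  ext s
  have h2 := two_mul_half hq
  have h3 := (Fact.out : q.Prime).two_le
  rw [mem_Q, Polynomial.mem_nthRootsFinset (by omega), chi_eq_one_iff hq]

lemma card_Q (hq : q ≠ 2) : (Q q).card = (q - 1) / 2 := by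
  obtain ⟨ζ, hζ⟩ := exists_primitive hq
  rw [Q_eq hq, hζ.card_nthRootsFinset]

/-- `∏_{s ∈ Q} (z - s) = z^n - 1`. -/
lemma prod_Q (hq : q ≠ 2) (z : K) :
    ∏ s ∈ Q q, (z - algebraMap (ZMod q) K s) = z ^ ((q - 1) / 2) - 1 := by
  obtain ⟨ζ, hζ⟩ := exists_primitive hq
  have h2 := two_mul_half hq
  have h3 := (Fact.out : q.Prime).two_le
  have h := Polynomial.X_pow_sub_one_eq_prod (by omega) hζ
  have h' := congrArg (Polynomial.aeval z) h
  rw [map_prod] at h'
  simp only [map_sub, map_pow, Polynomial.aeval_X, map_one, Polynomial.aeval_C] at h'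
  rw [Q_eq hq, h']

lemma prod_Q' (hq : q ≠ 2) (hn : Odd ((q - 1) / 2)) (z : K) :
    ∏ s ∈ Q q, (algebraMap (ZMod q) K s - z) = 1 - z ^ ((q - 1) / 2) := by
  have h1 : ∀ s ∈ Q q, (algebraMap (ZMod q) K s - z) = (-1) * (z - algebraMap (ZMod q) K s) := by
    intro s _; ring
  rw [Finset.prod_congr rfl h1, Finset.prod_mul_distrib, Finset.prod_const, card_Q hq, prod_Q hq,
    hn.neg_one_pow]
  ring

lemma prod_Q_self (hq : q ≠ 2) (hn : Odd ((q - 1) / 2)) :
    ∏ s ∈ Q q, algebraMap (ZMod q) K s = 1 := by
  have h := prod_Q' (K := K) hq hn 0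
  simp only [sub_zero] at h
  rw [h]
  have : (q - 1) / 2 ≠ 0 := by
    rcases hn with ⟨k, hk⟩; omega
  rw [zero_pow this]; ring

/-- The `x` with `x - e` and `x - e'` both nonzero squares. -/
def X2 (q : ℕ) [Fact q.Prime] (e e' : ZMod q) : Finset (ZMod q) :=
  univ.filter (fun x => chi q (x - e) = 1 ∧ chi q (x - e') = 1)

lemma mem_X2 {e e' x : ZMod q} : x ∈ X2 q e e' ↔ chi q (x - e) = 1 ∧ chi q (x - e') = 1 := by
  simp [X2]

lemma two_ne_zero' (hq : q ≠ 2) : (2 : ZMod q) ≠ 0 := by
  intro this
  have h3 : ((2 : ℕ) : ZMod q) = 0 := by exact_mod_cast this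
  rw [ZMod.natCast_eq_zero_iff] at h3
  have h4 := Nat.le_of_dvd (by norm_num) h3
  have h5 := (Fact.out : q.Prime).two_le
  omega

lemma exists_sqrt {x : ZMod q} (hx : chi q x = 1) : ∃ r : ZMod q, r ^ 2 = x ∧ r ≠ 0 := by
  have hx0 : x ≠ 0 := ne_zero_of_chi one_ne_zero hx
  have h := (quadraticChar_one_iff_isSquare hx0).mp hx
  obtain ⟨r, hr⟩ := h
  refine ⟨r, by rw [hr]; ring, ?_⟩
  rintro rfl
  apply hx0
  rw [hr]; ring

lemma chi_neg (hneg : chi q (-1) = -1) (x : ZMod q) : chi q (-x) = - chi q x := by
  have : -x = (-1) * x := by ring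
  rw [this, chi_mul, hneg]; ring

/-- The product over the split torus, fibred over `x = e + u^2`. -/
lemma prod_fibre (hq : q ≠ 2) (hneg : chi q (-1) = -1) {e e' : ZMod q}
    (hd : chi q (e' - e) = -1) (c u : K) (hu : u ^ 2 = c - algebraMap (ZMod q) K e) :
    ∏ s ∈ Q q, (algebraMap (ZMod q) K ((s + (e' - e) / s) / 2) - u)
      = (-u) * ∏ x ∈ X2 q e e', (c - algebraMap (ZMod q) K x) := by
  have h20 := two_ne_zero' hq
  have hd0 : e' - e ≠ 0 := ne_zero_of_chi (by norm_num) hd
  have hmaps : ∀ s ∈ Q q, (e + ((s + (e' - e) / s) / 2) ^ 2) ∈ insert e (X2 q e e') := by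
    intro s hs
    rw [mem_Q] at hs
    have hs0 : s ≠ 0 := ne_zero_of_chi one_ne_zero hs
    rw [Finset.mem_insert, mem_X2]
    by_cases h0 : (s + (e' - e) / s) / 2 = 0
    · left; rw [h0]; ring
    · right
      constructor
      · have : e + ((s + (e' - e) / s) / 2) ^ 2 - e = ((s + (e' - e) / s) / 2) ^ 2 := by ring
        rw [this, chi_sq h0]
      · have h1 : e + ((s + (e' - e) / s) / 2) ^ 2 - e' = ((s - (e' - e) / s) / 2) ^ 2 := by
          field_simp
          ring
        have h2 : (s - (e' - e) / s) / 2 ≠ 0 := by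
          intro h3
          have h4 : e' - e = s ^ 2 := by
            have h5 : s - (e' - e) / s = 0 := by
              rcases div_eq_zero_iff.mp h3 with h | h
              · exact h
              · exact absurd h h20
            have h6 : s = (e' - e) / s := sub_eq_zero.mp h5
            rw [eq_div_iff hs0] at h6
            rw [← h6]; ring
          rw [h4, chi_sq hs0] at hd
          norm_num at hd
        rw [h1, chi_sq h2]
  rw [← Finset.prod_fiberwise_of_maps_to hmaps]
  have heX : e ∉ X2 q e e' := by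
    rw [mem_X2]
    rintro ⟨h1, -⟩
    rw [sub_self, chi_zero] at h1
    norm_num at h1
  rw [Finset.prod_insert heX]
  congr 1
  · -- the fibre over `e`
    have hdneg : chi q (-(e' - e)) = 1 := by rw [chi_neg hneg, hd]; norm_num
    obtain ⟨r, hr, hr0⟩ := exists_sqrt hdneg
    obtain ⟨r, hr, hr1⟩ : ∃ r : ZMod q, r ^ 2 = -(e' - e) ∧ chi q r = 1 := by
      rcases chi_eq_one_or hr0 with h | h
      · exact ⟨r, hr, h⟩
      · exact ⟨-r, by rw [← hr]; ring, by rw [chi_neg hneg, h]; norm_num⟩
    have hr0 : r ≠ 0 := ne_zero_of_chi one_ne_zero hr1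
    have hfib : (Q q).filter (fun s => e + ((s + (e' - e) / s) / 2) ^ 2 = e) = {r} := by
      ext s
      rw [Finset.mem_filter, Finset.mem_singleton, mem_Q]
      constructor
      · rintro ⟨hs, hs2⟩
        have hs0 : s ≠ 0 := ne_zero_of_chi one_ne_zero hs
        have h1 : ((s + (e' - e) / s) / 2) ^ 2 = 0 := by linear_combination hs2
        have h2 : (s + (e' - e) / s) / 2 = 0 := pow_eq_zero_iff (by norm_num) |>.mp h1
        have h3 : s + (e' - e) / s = 0 := by
          rcases div_eq_zero_iff.mp h2 with h | h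
          · exact h
          · exact absurd h h20
        have h4 : s ^ 2 = -(e' - e) := by
          have := congrArg (fun t => t * s) h3
          simp only [add_mul, div_mul_cancel₀ _ hs0, zero_mul] at this
          linear_combination this
        have h5 : (s - r) * (s + r) = 0 := by linear_combination h4 - hr
        rcases mul_eq_zero.mp h5 with h | h
        · exact sub_eq_zero.mp h
        · exfalso
          have : s = -r := by linear_combination h
          rw [this, chi_neg hneg, hr1] at hs
          norm_num at hs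
      · rintro rfl
        refine ⟨hr1, ?_⟩
        have : (e' - e) / s = -s := by
          rw [div_eq_iff hr0]; linear_combination hr
        rw [this]; ring
    rw [hfib, Finset.prod_singleton]
    have : (e' - e) / r = -r := by
      rw [div_eq_iff hr0]; linear_combination hr
    rw [this]
    simp
  · -- the other fibres
    refine Finset.prod_congr rfl (fun x hx => ?_)
    rw [mem_X2] at hx
    obtain ⟨hx1, hx2⟩ := hx
    obtain ⟨μ, hμ, hμ0⟩ := exists_sqrt hx1
    obtain ⟨ν, hν, hν0⟩ := exists_sqrt hx2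
    have hprod : ∀ ν : ZMod q, ν ^ 2 = x - e' → chi q (μ + ν) * chi q (μ - ν) = -1 := by
      intro ν hν
      rw [← chi_mul, ← hd]
      congr 1
      linear_combination hμ - hν
    obtain ⟨ν, hν, hν1⟩ : ∃ ν : ZMod q, ν ^ 2 = x - e' ∧ chi q (μ + ν) = 1 := by
      have h0 : μ + ν ≠ 0 := by
        intro h
        have := hprod ν hν
        rw [h, chi_zero] at this
        norm_num at this
      rcases chi_eq_one_or h0 with h | h
      · exact ⟨ν, hν, h⟩
      · refine ⟨-ν, by rw [← hν]; ring, ?_⟩
        have := hprod ν hν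
        rw [h] at this
        have h2 : chi q (μ - ν) = 1 := by linarith
        rw [← sub_eq_add_neg]; exact h2
    have hν2 : chi q (μ - ν) = -1 := by
      have := hprod ν hν
      rw [hν1] at this
      linarith
    have hs1 : μ + ν ≠ 0 := ne_zero_of_chi one_ne_zero hν1
    have hs2 : chi q (ν - μ) = 1 := by
      have : ν - μ = -(μ - ν) := by ring
      rw [this, chi_neg hneg, hν2]; norm_num
    have hs2' : ν - μ ≠ 0 := ne_zero_of_chi one_ne_zero hs2
    have hdd : e' - e = (μ + ν) * (μ - ν) := by linear_combination hν - hμ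
    have hu1 : ((μ + ν) + (e' - e) / (μ + ν)) / 2 = μ := by
      rw [hdd, mul_div_cancel_left₀ _ hs1, div_eq_iff h20]; ring
    have hu2 : ((ν - μ) + (e' - e) / (ν - μ)) / 2 = -μ := by
      have : (e' - e) / (ν - μ) = -(μ + ν) := by
        rw [div_eq_iff hs2', hdd]; ring
      rw [this, div_eq_iff h20]; ring
    have hne : μ + ν ≠ ν - μ := by
      intro h
      have : 2 * μ = 0 := by linear_combination h
      rcases mul_eq_zero.mp this with h | h
      · exact h20 h
      · exact hμ0 h
    have hfib : (Q q).filter (fun s => e + ((s + (e' - e) / s) / 2) ^ 2 = x) = {μ + ν, ν - μ} := by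
      ext s
      rw [Finset.mem_filter, Finset.mem_insert, Finset.mem_singleton, mem_Q]
      constructor
      · rintro ⟨hs, hs2⟩
        have hs0 : s ≠ 0 := ne_zero_of_chi one_ne_zero hs
        have hw : s * ((s + (e' - e) / s)) = s ^ 2 + (e' - e) := by
          field_simp
        set t := (s + (e' - e) / s) / 2 with ht
        have hw2 : s ^ 2 + (e' - e) = 2 * t * s := by
          rw [ht, ← hw]; field_simp
        have h1 : (t - μ) * (t + μ) = 0 := by linear_combination hs2 - hμ
        rcases mul_eq_zero.mp h1 with h | h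
        · have h2 : (s - (μ + ν)) * (s - (μ - ν)) = 0 := by
            linear_combination hw2 - hdd + 2 * s * h
          rcases mul_eq_zero.mp h2 with h3 | h3
          · left; exact sub_eq_zero.mp h3
          · exfalso
            have : s = μ - ν := sub_eq_zero.mp h3
            rw [this, hν2] at hs
            norm_num at hs
        · have h2 : (s + (μ + ν)) * (s + (μ - ν)) = 0 := by
            linear_combination hw2 - hdd + 2 * s * h
          rcases mul_eq_zero.mp h2 with h3 | h3
          · exfalso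
            have : s = -(μ + ν) := by linear_combination h3
            rw [this, chi_neg hneg, hν1] at hs
            norm_num at hs
          · right; linear_combination h3
      · rintro (rfl | rfl)
        · refine ⟨hν1, ?_⟩
          rw [hu1, hμ]; ring
        · refine ⟨hs2, ?_⟩
          rw [hu2]; linear_combination hμ
    rw [hfib, Finset.prod_pair hne, hu1, hu2]
    have : algebraMap (ZMod q) K μ ^ 2 = algebraMap (ZMod q) K x - algebraMap (ZMod q) K e := by
      rw [← map_pow, hμ, map_sub]
    rw [map_neg]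
    linear_combination hu - this

/-- The torus product formula. -/
theorem torus (hq : q ≠ 2) (hn : Odd ((q - 1) / 2)) (hneg : chi q (-1) = -1)
    (h2 : chi q 2 = 1) {e e' : ZMod q}
    (hd : chi q (e' - e) = -1) (c u v : K) (hu : u ^ 2 = c - algebraMap (ZMod q) K e)
    (hv : v ^ 2 = c - algebraMap (ZMod q) K e') :
    ((-u) * ∏ x ∈ X2 q e e', (c - algebraMap (ZMod q) K x)) * (u + v) ^ ((q - 1) / 2)
      = 1 - ((u + v) ^ ((q - 1) / 2)) ^ 2 := by
  have h20 := two_ne_zero' hq
  rw [← prod_fibre hq hneg hd c u hu]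
  set n := (q - 1) / 2 with hnn
  have hd0 : e' - e ≠ 0 := ne_zero_of_chi (by norm_num) hd
  have huv : (u + v) * (u - v) = algebraMap (ZMod q) K (e' - e) := by
    rw [map_sub]; linear_combination hu - hv
  have hm2 : algebraMap (ZMod q) K 2 = 2 := map_ofNat (algebraMap (ZMod q) K) 2
  have h2K : (2 : K) ≠ 0 := by
    rw [← hm2, map_ne_zero]; exact h20
  have key : ∏ s ∈ Q q, (algebraMap (ZMod q) K ((s + (e' - e) / s) / 2) - u)
      = (1 - (u + v) ^ n) * (1 - (u - v) ^ n) := by
    have h1 : ∀ s ∈ Q q, algebraMap (ZMod q) K ((s + (e' - e) / s) / 2) - u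
        = (algebraMap (ZMod q) K s - (u + v)) * (algebraMap (ZMod q) K s - (u - v))
          / (2 * algebraMap (ZMod q) K s) := by
      intro s hs
      rw [mem_Q] at hs
      have hs0 : s ≠ 0 := ne_zero_of_chi one_ne_zero hs
      have hsK : algebraMap (ZMod q) K s ≠ 0 := by rw [map_ne_zero]; exact hs0
      rw [map_div₀, map_add, map_div₀, ← huv]
      rw [hm2]
      field_simp
      ring
    rw [Finset.prod_congr rfl h1, Finset.prod_div_distrib, Finset.prod_mul_distrib,
      Finset.prod_mul_distrib, prod_Q' hq hn, prod_Q' hq hn, prod_Q_self hq hn, Finset.prod_const,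
      card_Q hq]
    have h3 : (2 : K) ^ ((q - 1) / 2) = 1 := by
      have := map_pow_half (K := K) hq 2
      rw [h2, hm2] at this
      simpa using this
    rw [h3]; simp [hnn]
  rw [key]
  have h4 : (u + v) ^ n * (u - v) ^ n = -1 := by
    rw [← mul_pow, huv, map_pow_half hq, hd]; simp
  linear_combination (-1 + (u + v) ^ n) * h4

end Pool.Agent.Work.CharSums71
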